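import Pool.Agent.MP_1246c0_nt.H12.SpecA

/-! Units of the layers over the rationals. -/

namespace Pool.Agent.MP_1246c0_nt.H12

open NumberField IsDedekindDomain Polynomial Finset Pool.Agent.MP_db5b97_nt.H85

namespace UN

section Lin

open Module

variable {K V : Type} [Field K] [AddCommGroup V] [Module K V] [FiniteDimensional K V]

theorem ker_pow_le (A : Module.End K V) (h1 : finrank K (LinearMap.ker A) ≤ 1) (j : ℕ) :
    finrank K (LinearMap.ker (A ^ j)) ≤ j := by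
  induction j with
  | zero => simp [Module.End.one_eq_id]
  | succ j ih =>
    have h := (A.domRestrict (LinearMap.ker (A ^ (j + 1)))).finrank_range_add_finrank_ker
    have h2 : LinearMap.range (A.domRestrict (LinearMap.ker (A ^ (j + 1)))) ≤
        LinearMap.ker (A ^ j) := by
      rintro _ ⟨⟨x, hx⟩, rfl⟩
      simpa [pow_succ] using hx
    have h3 : finrank K (LinearMap.ker (A.domRestrict (LinearMap.ker (A ^ (j + 1))))) ≤
        finrank K (LinearMap.ker A) := by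
      rw [← Submodule.finrank_map_subtype_eq]
      refine Submodule.finrank_mono ?_
      rintro _ ⟨x, hx, rfl⟩
      exact hx
    have h4 := Submodule.finrank_mono h2
    omega

theorem stab_eq (A : Module.End K V) (hn : IsNilpotent A) (h1 : finrank K (LinearMap.ker A) ≤ 1)
    (W : Submodule K V) (hW : ∀ x ∈ W, A x ∈ W) : W = LinearMap.ker (A ^ finrank K W) := by
  refine Submodule.eq_of_le_of_finrank_le (fun x hx => ?_) (ker_pow_le A h1 _)
  obtain ⟨m, hm⟩ := hn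
  have h2 : (⟨x, hx⟩ : W) ∈ LinearMap.ker (A.restrict hW ^ m) := by
    rw [LinearMap.mem_ker, Module.End.pow_restrict]
    ext
    simp [hm]
  have h3 := Module.End.ker_pow_le_ker_pow_finrank (A.restrict hW) m h2
  rw [LinearMap.mem_ker, Module.End.pow_restrict] at h3
  exact congrArg Subtype.val h3

theorem chain (A : Module.End K V) (hn : IsNilpotent A) (h1 : finrank K (LinearMap.ker A) ≤ 1)
    (W W' : Submodule K V) (hW : ∀ x ∈ W, A x ∈ W) (hW' : ∀ x ∈ W', A x ∈ W')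
    (h : finrank K W ≤ finrank K W') : W ≤ W' := by
  intro x hx
  rw [stab_eq A hn h1 W hW, LinearMap.mem_ker] at hx
  rw [stab_eq A hn h1 W' hW', LinearMap.mem_ker, ← Nat.sub_add_cancel h, pow_add,
    Module.End.mul_apply, hx, map_zero]

theorem sub_one_pow {R : Type} [Ring R] (h2 : (2 : R) = 0) (a : R) (m : ℕ) :
    (a - 1) ^ 2 ^ m = a ^ 2 ^ m - 1 := by
  induction m with
  | zero => simp
  | succ m ih =>
    rw [pow_succ, pow_mul, pow_mul, ih]
    have : ∀ b : R, (b - 1) ^ 2 = b ^ 2 - 1 - 2 * (b - 1) := fun b => by noncomm_ring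
    rw [this, h2, zero_mul, sub_zero]

end Lin

section Tw

theorem map_tw {R S : Type} [Ring R] [Ring S] (φ : R →+* S) (n : ℕ) (x : R) :
    φ (tw^[n] x) = tw^[n] (φ x) := by
  induction n with
  | zero => rfl
  | succ n ih => simp only [Function.iterate_succ_apply', tw, map_sub, map_pow, ih, map_ofNat]

theorem tw_neg_one {R : Type} [Ring R] (n : ℕ) : tw^[n] (-1 : R) = -1 :=
  Function.iterate_fixed (by simp only [tw]; norm_num) n

theorem tw_dvd {R : Type} [CommRing R] (n : ℕ) (x y : R) : x - y ∣ tw^[n] x - tw^[n] y := by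
  induction n with
  | zero => exact dvd_rfl
  | succ n ih =>
    simp only [Function.iterate_succ_apply']
    refine ih.trans ⟨tw^[n] x + tw^[n] y, ?_⟩
    simp only [tw]
    ring

theorem tw_monic (n : ℕ) : (tw^[n] (X : ℝ[X])).Monic ∧ (tw^[n] (X : ℝ[X])).natDegree = 2 ^ n := by
  induction n with
  | zero => simp
  | succ n ih =>
    rw [Function.iterate_succ_apply']
    have h1 : ((tw^[n] (X : ℝ[X])) ^ 2).natDegree = 2 ^ (n + 1) := by
      rw [ih.1.natDegree_pow, ih.2, pow_succ, mul_comm]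
    have h2 : (2 : ℝ[X]).degree < ((tw^[n] (X : ℝ[X])) ^ 2).degree := by
      refine degree_lt_degree ?_
      rw [h1, natDegree_ofNat]
      positivity
    exact ⟨(ih.1.pow 2).sub_of_left h2, by
      rw [tw, natDegree_eq_of_degree_eq (degree_sub_eq_left_of_degree_lt h2), h1]⟩

end Tw

section Field

variable {F : Type} [Field F] [NumberField F]

theorem mem_Eu {x : Un F} : x ∈ Eu F ↔ ∀ w : Sp F, w.valuation F x.val = 1 := by
  simp only [Eu, AddSubgroup.mem_iInf, AddMonoidHom.mem_ker, ord_eq_zero_iff]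

theorem int (x : Un F) : x ∈ Eu F ↔ ∃ u : (𝓞 F)ˣ, x.val = ((u : 𝓞 F) : F) := by
  rw [mem_Eu]
  constructor
  · intro h
    obtain ⟨a, ha⟩ := HeightOneSpectrum.mem_integers_of_valuation_le_one (R := 𝓞 F) F x.val
      fun w => (h w).le
    obtain ⟨b, hb⟩ := HeightOneSpectrum.mem_integers_of_valuation_le_one (R := 𝓞 F) F x.val⁻¹
      fun w => by rw [map_inv₀, h w, inv_one]
    have hab : a * b = 1 := by
      apply RingOfIntegers.coe_injective
      rw [map_mul, ha, hb, map_one, mul_inv_cancel₀ x.val_ne]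
    exact ⟨⟨a, b, hab, by rw [mul_comm, hab]⟩, ha.symm⟩
  · rintro ⟨u, hu⟩ w
    rw [hu, val_eq_one_iff]
    exact fun h => w.isPrime.ne_top (Ideal.eq_top_of_isUnit_mem _ h u.isUnit)

/-- a unit as an element of the multiplicative group -/
noncomputable def ofU (u : (𝓞 F)ˣ) : Un F := mkI u u.ne_zero

theorem ofU_mem (u : (𝓞 F)ˣ) : ofU u ∈ Eu F := (int _).2 ⟨u, rfl⟩

theorem smul_mem (g : F ≃ₐ[ℚ] F) {x : Un F} (hx : x ∈ Eu F) : g • x ∈ Eu F := by
  obtain ⟨u, hu⟩ := (int x).1 hx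
  refine (int _).2 ⟨Units.map (MulSemiringAction.toRingHom _ (𝓞 F) g).toMonoidHom u, ?_⟩
  rw [Un.val_smul, hu]
  rfl

theorem gens [IsTotallyReal F] (ρ : F →+* ℝ) : ∃ g : Option (Fin (Units.rank F)) → Un F,
    (∀ i, g i ∈ Eu F) ∧ ∀ u ∈ Eu F, ∃ z : Option (Fin (Units.rank F)) → ℤ, u = ∑ i, z i • g i := by
  refine ⟨fun i => i.elim (ofU (-1)) fun j => ofU (Units.fundSystem F j), ?_, fun u hu => ?_⟩
  · rintro (_ | j) <;> exact ofU_mem _
  obtain ⟨v, hv⟩ := (int u).1 hu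
  obtain ⟨⟨ζ, e⟩, h, -⟩ := Units.exist_unique_eq_mul_prod F v
  have hζ : ∃ c : ℤ, (((ζ : (𝓞 F)ˣ) : 𝓞 F) : F) = (-1) ^ c := by
    obtain ⟨k, hk, h1⟩ := isOfFinOrder_iff_pow_eq_one.1 ((CommGroup.mem_torsion _).1 ζ.2)
    have h2 : (ρ (((ζ : (𝓞 F)ˣ) : 𝓞 F) : F)) ^ k = 1 := by
      rw [← map_pow, ← map_pow (algebraMap (𝓞 F) F), ← Units.val_pow_eq_pow_val, h1]
      simp
    rcases (pow_eq_one_iff_of_ne_zero hk.ne').1 h2 with h3 | h3
    · exact ⟨0, ρ.injective (by simpa using h3)⟩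
    · exact ⟨1, ρ.injective (by simpa using h3.1)⟩
  obtain ⟨c, hc⟩ := hζ
  refine ⟨fun i => i.elim c e, Un.ext ?_⟩
  rw [hv, h, Un.val_sum, Fintype.prod_option]
  simp [ofU, hc, NumberField.Units.coe_zpow]

open Classical in
/-- the sign of a real number, additively -/
noncomputable def s0 (x : ℝ) : F2 := if x < 0 then 1 else 0

theorem s0_mul {x y : ℝ} (hx : x ≠ 0) (hy : y ≠ 0) : s0 (x * y) = s0 x + s0 y := by
  unfold s0
  rcases lt_or_gt_of_ne hx with h | h <;> rcases lt_or_gt_of_ne hy with h' | h'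
  · rw [if_neg (mul_pos_of_neg_of_neg h h').not_gt, if_pos h, if_pos h']; rfl
  · rw [if_pos (mul_neg_of_neg_of_pos h h'), if_pos h, if_neg h'.not_gt, add_zero]
  · rw [if_pos (mul_neg_of_pos_of_neg h h'), if_neg h.not_gt, if_pos h', zero_add]
  · rw [if_neg (mul_pos h h').not_gt, if_neg h.not_gt, if_neg h'.not_gt, add_zero]

theorem s0_prod {ι : Type} (s : Finset ι) (f : ι → ℝ) (hf : ∀ i, f i ≠ 0) :
    s0 (∏ i ∈ s, f i) = ∑ i ∈ s, s0 (f i) := by
  classical
  induction s using Finset.induction_on with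
  | empty => simp [s0]
  | insert i s h ih =>
    rw [prod_insert h, sum_insert h, s0_mul (hf i) (prod_ne_zero_iff.2 fun j _ => hf j), ih]

theorem s0_eq_one {x : ℝ} : s0 x = 1 ↔ x < 0 := by
  unfold s0
  split_ifs with h <;> simp [h]

variable (F) in
/-- the sign map -/
noncomputable def sgn : Un F →+ ((F →+* ℝ) → F2) where
  toFun u ρ := s0 (ρ u.val)
  map_zero' := by ext ρ; simp [s0]
  map_add' u v := by
    ext ρ
    rw [Un.val_add, map_mul, s0_mul (by simp) (by simp), Pi.add_apply]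

/-- the action on sign vectors -/
noncomputable def Tg : (F ≃ₐ[ℚ] F) →* Module.End F2 ((F →+* ℝ) → F2) where
  toFun g := LinearMap.funLeft F2 F2 fun ρ => ρ.comp (g : F →+* F)
  map_one' := rfl
  map_mul' _ _ := rfl

omit [NumberField F] in
theorem two_nsmul' (f : (F →+* ℝ) → F2) : 2 • f = 0 := by
  ext ρ
  rw [two_nsmul, Pi.add_apply, CharTwo.add_self_eq_zero, Pi.zero_apply]

theorem sgn_smul (g : F ≃ₐ[ℚ] F) (u : Un F) : sgn F (g • u) = Tg g (sgn F u) := rfl

theorem sum_Tg (g : F ≃ₐ[ℚ] F) (f : (F →+* ℝ) → F2) : ∑ ρ, Tg g f ρ = ∑ ρ, f ρ := by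
  refine Fintype.sum_bijective (fun ρ : F →+* ℝ => ρ.comp (g : F →+* F)) ?_ _ _ fun _ => rfl
  refine Finite.injective_iff_bijective.1 fun ρ ρ' h => RingHom.ext fun x => ?_
  obtain ⟨y, rfl⟩ := g.surjective x
  exact DFunLike.congr_fun h y

end Field

section Cyc

open Module

variable {F : Type} [Field F] [NumberField F] {n : ℕ} {θ : F} {γ : F ≃ₐ[ℚ] F}

omit [NumberField F] in
theorem end_two : (2 : Module.End F2 ((F →+* ℝ) → F2)) = 0 := by
  refine LinearMap.ext fun f => ?_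
  rw [Module.End.ofNat_apply]
  exact two_nsmul' f

theorem gpow (hc : SCY) (h : Cy F n θ γ) : γ ^ 2 ^ n = 1 := by
  rw [← (hc.gal F n θ γ h).2.2.1, pow_orderOf_eq_one]

theorem card_X (hc : SCY) (h : Cy F n θ γ) : Fintype.card (F →+* ℝ) = 2 ^ n := by
  rw [← Nat.card_eq_fintype_card, (hc.real F n θ γ h).2.1]

theorem ne_X (hc : SCY) (h : Cy F n θ γ) : Nonempty (F →+* ℝ) :=
  Fintype.card_pos_iff.1 (by rw [card_X hc h]; positivity)

theorem rk_V (hc : SCY) (h : Cy F n θ γ) : finrank F2 ((F →+* ℝ) → F2) = 2 ^ n := by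
  rw [finrank_fintype_fun_eq_card, card_X hc h]

theorem nil (hc : SCY) (h : Cy F n θ γ) : IsNilpotent (Tg γ - 1) :=
  ⟨2 ^ n, by rw [sub_one_pow end_two, ← map_pow, gpow hc h, map_one, sub_self]⟩

theorem ker_le (hc : SCY) (h : Cy F n θ γ) : finrank F2 (LinearMap.ker (Tg γ - 1)) ≤ 1 := by
  obtain ⟨ρ₀⟩ := ne_X hc h
  have key : ∀ f ∈ LinearMap.ker (Tg γ - 1), ∀ ρ, f ρ = f ρ₀ := by
    intro f hf ρ
    have h1 : Tg γ f = f := sub_eq_zero.1 hf
    have h2 : ∀ k : ℕ, Tg (γ ^ k) f = f := by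
      intro k
      induction k with
      | zero => rfl
      | succ k ih => rw [pow_succ, map_mul, Module.End.mul_apply, h1, ih]
    obtain ⟨k, hk⟩ := (hc.real F n θ γ h).2.2 ρ₀ ρ
    have h3 : ρ = ρ₀.comp ((γ ^ k : F ≃ₐ[ℚ] F) : F →+* F) := RingHom.ext hk
    rw [h3]
    exact congrFun (h2 k) ρ₀
  refine (LinearMap.finrank_le_finrank_of_injective
    (f := (LinearMap.proj ρ₀).domRestrict (LinearMap.ker (Tg γ - 1))) ?_).trans
    (finrank_self F2).le
  intro f f' e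
  ext ρ
  rw [key f.1 f.2 ρ, key f'.1 f'.2 ρ]
  exact e

theorem eta (hc : SCY) (h : Cy F n θ γ) :
    ∃ η ∈ Eu F, η.val = -(1 + θ) ∧ ∑ ρ, sgn F η ρ = 1 := by
  let t : 𝓞 F := ⟨θ, (hc.gal F n θ γ h).2.2.2⟩
  have ht : tw^[n] t = 0 := by
    apply RingOfIntegers.coe_injective
    rw [map_tw, map_zero]
    exact h.root
  have hu : IsUnit (-(1 + t)) := by
    have := tw_dvd n (-1) t
    rw [ht, tw_neg_one, sub_zero] at this
    refine isUnit_of_dvd_unit ?_ isUnit_neg_one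
    rwa [neg_add, ← sub_eq_add_neg]
  have hv : (ofU hu.unit).val = -(1 + θ) := by simp [ofU, t]
  refine ⟨ofU hu.unit, ofU_mem _, hv, ?_⟩
  have hP : (tw^[n] (X : ℝ[X])) = ∏ ρ : F →+* ℝ, (X - C (ρ θ)) := by
    have hm : (∏ ρ : F →+* ℝ, (X - C (ρ θ))).Monic := monic_prod_X_sub_C _ _
    have hd : (tw^[n] (X : ℝ[X])).degree = (univ : Finset (F →+* ℝ)).card := by
      rw [degree_eq_natDegree (tw_monic n).1.ne_zero, (tw_monic n).2, card_univ, card_X hc h]
    refine eq_of_degree_le_of_eval_index_eq (v := fun ρ : F →+* ℝ => ρ θ) univ ?_ hd.le ?_ ?_ ?_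
    · intro ρ _ ρ' _ e
      have : ρ.toRatAlgHom = ρ'.toRatAlgHom := by
        refine AlgHom.ext_of_adjoin_eq_top (s := {θ}) ?_ ?_
        · rw [← IntermediateField.adjoin_simple_toSubalgebra_of_isAlgebraic
            (Algebra.IsAlgebraic.isAlgebraic θ), h.gen, IntermediateField.top_toSubalgebra]
        · rintro _ rfl
          exact e
      exact RingHom.ext fun x => DFunLike.congr_fun this x
    · rw [hd, degree_eq_natDegree hm.ne_zero, natDegree_finsetProd_X_sub_C_eq_card]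
    · rw [(tw_monic n).1.leadingCoeff, hm.leadingCoeff]
    · intro ρ _
      rw [eval_prod, prod_eq_zero (mem_univ ρ) (by simp), ← coe_evalRingHom, map_tw,
        coe_evalRingHom, eval_X, ← map_tw, h.root, map_zero]
  have h1 := congrArg (evalRingHom (-1 : ℝ)) hP
  rw [map_tw, coe_evalRingHom, eval_X, tw_neg_one, eval_prod] at h1
  have h2 : ∏ ρ : F →+* ℝ, ρ (ofU hu.unit).val = -1 := by
    rw [h1]
    refine prod_congr rfl fun ρ _ => ?_
    rw [hv]
    simp
    ring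
  have h3 := s0_prod univ (fun ρ : F →+* ℝ => ρ (ofU hu.unit).val) fun ρ => by simp
  rw [h2, s0_eq_one.2 (by norm_num)] at h3
  exact h3.symm

theorem span_top (hc : SCY) (h : Cy F n θ γ) {e : (F →+* ℝ) → F2} (he : ∑ ρ, e ρ = 1)
    (f : (F →+* ℝ) → F2) : ∃ a : ℕ → ℕ, f = ∑ k ∈ range (2 ^ n), a k • Tg (γ ^ k) e := by
  let W := Submodule.span F2 ((fun k : ℕ => Tg (γ ^ k) e) '' (range (2 ^ n) : Finset ℕ))
  have hm : ∀ k, k < 2 ^ n → Tg (γ ^ k) e ∈ W := fun k hk =>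
    Submodule.subset_span ⟨k, by simpa using hk, rfl⟩
  have hT : W.map (Tg γ) ≤ W := by
    rw [Submodule.map_span_le]
    rintro _ ⟨k, hk, rfl⟩
    rw [← Module.End.mul_apply, ← map_mul, ← pow_succ']
    rcases (Nat.succ_le_of_lt (by simpa using hk : k < 2 ^ n)).lt_or_eq with h1 | h1
    · exact hm _ h1
    · rw [show k + 1 = 2 ^ n from h1, gpow hc h, ← pow_zero γ]
      exact hm _ (by positivity)
  have hW : W = ⊤ := by
    by_contra hW
    have h1 := Submodule.finrank_lt hW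
    have h2 := (Tg γ - 1).finrank_range_add_finrank_ker
    have h3 := ker_le hc h
    obtain ⟨g, hg⟩ := chain _ (nil hc h) h3 W (LinearMap.range (Tg γ - 1))
      (fun x hx => sub_mem (hT ⟨x, hx, rfl⟩) hx) (fun x _ => ⟨x, rfl⟩) (by omega)
      (hm 0 (by positivity))
    have h4 : e = Tg γ g - g := hg.symm
    rw [h4] at he
    simp only [Pi.sub_apply, sum_sub_distrib, sum_Tg, sub_self] at he
    exact zero_ne_one he
  obtain ⟨c, hc'⟩ := (Submodule.mem_span_image_finset_iff_exists_fun' F2).1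
    (show f ∈ W from hW ▸ Submodule.mem_top)
  refine ⟨fun k => (c k).val, ?_⟩
  rw [← hc']
  refine sum_congr rfl fun k _ => ?_
  rw [← Nat.cast_smul_eq_nsmul F2, ZMod.natCast_zmod_val]

theorem surj (hc : SCY) (h : Cy F n θ γ) {η : Un F} (he : ∑ ρ, sgn F η ρ = 1)
    (f : (F →+* ℝ) → F2) : ∃ a : ℕ → ℕ, sgn F (∑ k ∈ range (2 ^ n), a k • γ ^ k • η) = f := by
  obtain ⟨a, ha⟩ := span_top hc h he f
  exact ⟨a, by simp only [ha, map_sum, map_nsmul, sgn_smul]⟩

theorem sum_mem' {η : Un F} (hη : η ∈ Eu F) (a : ℕ → ℕ) :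
    ∑ k ∈ range (2 ^ n), a k • γ ^ k • η ∈ Eu F :=
  sum_mem fun _ _ => nsmul_mem (smul_mem _ hη) _

theorem surj' (hc : SCY) (h : Cy F n θ γ) (f : (F →+* ℝ) → F2) : ∃ u ∈ Eu F, sgn F u = f := by
  obtain ⟨η, hη, -, he⟩ := eta hc h
  obtain ⟨a, ha⟩ := surj hc h he f
  exact ⟨_, sum_mem' hη a, ha⟩

theorem ker_sq (hc : SCY) (h : Cy F n θ γ) {u : Un F} (hu : u ∈ Eu F) (h0 : sgn F u = 0) :
    ∃ v ∈ Eu F, u = 2 • v := by
  have := (hc.real F n θ γ h).1
  obtain ⟨ρ₀⟩ := ne_X hc h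
  obtain ⟨g, hg, hz⟩ := gens ρ₀
  let Ψ : (Option (Fin (Units.rank F)) → F2) → (F →+* ℝ) → F2 := fun c => ∑ i, c i • sgn F (g i)
  have hΨ : ∀ z : Option (Fin (Units.rank F)) → ℤ, sgn F (∑ i, z i • g i) = Ψ fun i => z i := by
    intro z
    simp only [Ψ, map_sum, map_zsmul, Int.cast_smul_eq_zsmul]
  have hs : Function.Surjective Ψ := fun f => by
    obtain ⟨v, hv, rfl⟩ := surj' hc h f
    obtain ⟨z, rfl⟩ := hz v hv
    exact ⟨_, (hΨ z).symm⟩
  have hr : Units.rank F + 1 = 2 ^ n := by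
    rw [Units.rank, Nat.sub_add_cancel Fintype.card_pos,
      InfinitePlace.card_eq_nrRealPlaces_add_nrComplexPlaces,
      IsTotallyReal.nrComplexPlaces_eq_zero, add_zero, ← IsTotallyReal.finrank, h.rk]
  have hi : Function.Injective Ψ := by
    classical
    refine ((Fintype.bijective_iff_surjective_and_card Ψ).2 ⟨hs, ?_⟩).1
    rw [Fintype.card_fun, Fintype.card_fun, card_X hc h, Fintype.card_option, Fintype.card_fin, hr]
  obtain ⟨z, rfl⟩ := hz u hu
  have h1 : (fun i => (z i : F2)) = 0 := hi (by rw [← hΨ, h0]; simp [Ψ])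
  choose y hy using fun i => (ZMod.intCast_zmod_eq_zero_iff_dvd (z i) 2).1 (congrFun h1 i)
  refine ⟨∑ i, y i • g i, sum_mem fun i _ => zsmul_mem (hg i) _, ?_⟩
  rw [smul_sum]
  refine sum_congr rfl fun i _ => ?_
  rw [hy i, mul_smul, natCast_zsmul]

theorem card_V (hc : SCY) (h : Cy F n θ γ) : Nat.card ((F →+* ℝ) → F2) = 2 ^ 2 ^ n := by
  rw [Nat.card_fun, Nat.card_zmod, (hc.real F n θ γ h).2.1]

theorem uni (hc : SCY) (h : Cy F n θ γ) (U : AddSubgroup (Un F)) (k m : ℕ) (_hU : U ≤ Eu F)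
    (h2 : ∀ v ∈ Eu F, 2 • v ∈ U) (hγ : ∀ u ∈ U, γ • u ∈ U) (hi : U.relIndex (Eu F) ≤ 2 ^ k)
    (hk : k + 2 ^ m ≤ 2 ^ n) (u : Un F) (hu : u ∈ Eu F)
    (hv : ∃ v ∈ Eu F, γ ^ 2 ^ m • u - u = 2 • v) : u ∈ U := by
  have hker : ∀ x ∈ Eu F, sgn F x = 0 → x ∈ U := fun x hx h0 => by
    obtain ⟨v, hv, rfl⟩ := ker_sq hc h hx h0
    exact h2 v hv
  let S : Eu F →+ ((F →+* ℝ) → F2) := (sgn F).comp (Eu F).subtype
  let W₀ := (U.addSubgroupOf (Eu F)).map S
  have h3 : W₀.index ≤ 2 ^ k := by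
    have hs : Function.Surjective S := fun f => by
      obtain ⟨v, hv, e⟩ := surj' hc h f
      exact ⟨⟨v, hv⟩, e⟩
    have hk' : S.ker ≤ U.addSubgroupOf (Eu F) := fun x hx => hker x.1 x.2 hx
    rw [AddSubgroup.index_map_eq _ hs hk']
    exact hi
  let W : Submodule F2 ((F →+* ℝ) → F2) := AddSubgroup.toZModSubmodule 2 W₀
  have h4 : Nat.card W₀ = 2 ^ finrank F2 W := by
    have := Module.natCard_eq_pow_finrank (K := F2) (V := W)
    rwa [Nat.card_zmod] at this
  have h5 : 2 ^ m ≤ finrank F2 W := by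
    have h6 := W₀.card_mul_index
    rw [card_V hc h, h4] at h6
    have h7 : 2 ^ 2 ^ n ≤ 2 ^ (finrank F2 W + k) := by
      rw [← h6, pow_add]
      exact Nat.mul_le_mul_left _ h3
    have := (Nat.pow_le_pow_iff_right (by norm_num)).1 h7
    omega
  have h8 : sgn F u ∈ W := by
    refine chain _ (nil hc h) (ker_le hc h) (LinearMap.ker ((Tg γ - 1) ^ 2 ^ m)) W ?_ ?_
      ((ker_pow_le _ (ker_le hc h) _).trans h5) ?_
    · intro x hx
      rw [LinearMap.mem_ker, ← Module.End.mul_apply, ← pow_succ, pow_succ', Module.End.mul_apply,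
        LinearMap.mem_ker.1 hx, map_zero]
    · rintro _ ⟨x, hx, rfl⟩
      exact sub_mem ⟨⟨γ • x.1, smul_mem γ x.2⟩, hγ _ hx, rfl⟩ ⟨x, hx, rfl⟩
    · obtain ⟨v, -, e⟩ := hv
      have := congrArg (sgn F) e
      rw [map_sub, map_nsmul, two_nsmul', sgn_smul] at this
      rw [LinearMap.mem_ker, sub_one_pow end_two, ← map_pow]
      exact this
  obtain ⟨x, hx, e⟩ := h8
  have h9 := hker (u - x.1) (sub_mem hu x.2) (by rw [map_sub]; exact sub_eq_zero.2 e.symm)
  simpa using add_mem h9 hx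

theorem idx (hc : SCY) (h : Cy F n θ γ) :
    ((Eu F).map (nsmulAddMonoidHom 2)).relIndex (Eu F) = 2 ^ 2 ^ n := by
  have h1 : (Eu F).map (nsmulAddMonoidHom 2) = (sgn F).ker ⊓ Eu F := by
    refine le_antisymm ?_ fun x hx => ?_
    · rintro _ ⟨x, hx, rfl⟩
      exact ⟨(map_nsmul (sgn F) 2 x).trans (two_nsmul' _), nsmul_mem hx 2⟩
    · obtain ⟨v, hv, e⟩ := ker_sq hc h hx.2 hx.1
      exact ⟨v, hv, e.symm⟩
  have h2 : (Eu F).map (sgn F) = ⊤ := eq_top_iff.2 fun f _ => surj' hc h f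
  rw [h1, AddSubgroup.inf_relIndex_right, AddSubgroup.relIndex_ker, h2, AddSubgroup.card_top,
    card_V hc h]

end Cyc

end UN

open UN in
theorem rowUN : OfUN := fun hc =>
  { sig := fun F _ _ n θ γ h A => by
      classical
      obtain ⟨u, hu, e⟩ := surj' hc h fun ρ => if ρ ∈ A then 1 else 0
      refine ⟨u, hu, fun ρ => ?_⟩
      rw [← s0_eq_one, show s0 (ρ u.val) = if ρ ∈ A then 1 else 0 from congrFun e ρ]
      split_ifs with h1 <;> simp [h1]
    sq := fun F _ _ n θ γ h u hu hp => ker_sq hc h hu (funext fun ρ => if_neg (hp ρ).not_gt)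
    gen := fun F _ _ n θ γ h => by
      obtain ⟨η, hη, hv, he⟩ := eta hc h
      refine ⟨η, hη, hv, fun u hu => ?_⟩
      obtain ⟨a, ha⟩ := surj hc h he (sgn F u)
      obtain ⟨v, hv', e⟩ := ker_sq hc h (sub_mem hu (sum_mem' (n := n) (γ := γ) hη a))
        (by rw [map_sub, ha, sub_self])
      exact ⟨a, v, hv', by rw [← e, add_sub_cancel]⟩
    uni := fun F _ _ n θ γ h U k m => uni hc h U k m
    idx := fun F _ _ n θ γ h => idx hc h
    int := fun F _ _ x => int x }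

end Pool.Agent.MP_1246c0_nt.H12
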