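import Pool.Agent.MP_1246c0_nt.H25.SpecN
import Pool.Agent.MP_1246c0_nt.H49.F2
import Pool.Agent.MP_1246c0_nt.H35.CFG
import Pool.Agent.MP_1246c0_nt.H12.FIN

/-! Formal properties of the sum over all configurations. -/

namespace Pool.Agent.MP_1246c0_nt.H25

open Finset
open Pool.Agent.MP_1246c0_nt.H12

namespace G0

open F2 Classical

variable {X : ℕ} {Sg : Finset ℕ}

theorem mem_Sm : Sg ∈ Sm X ↔ (∀ l ∈ Sg, l ≤ YY X ∧ l.Prime ∧ l ≠ 2) ∧ Sg.card ≤ m0 X := by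
  simp only [Sm, mem_filter, mem_powerset, subset_iff, mem_OP]

theorem pos (h : Sg ∈ Sm X) : 0 < ∏ l ∈ Sg, l := prod_pos fun l hl => ((mem_Sm.1 h).1 l hl).2.1.pos

theorem dd_eq {m : ℕ} (p : Fin m → ℕ) (P : ℕ) :
    dd (prs Sg p) P = P * ((∏ l ∈ Sg, l) * ∏ i, p i) := by
  simp [dd, prs, prod_attach Sg fun p => p]

theorem sel (c : ℝ) : ∑ i1 : Sg, (if i1.1 % 8 = 5 ∧ ∀ l ∈ Sg, l % 8 = 5 → i1.1 ≤ l then c else 0) =
    if ∃ l ∈ Sg, l % 8 = 5 then c else 0 := by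
  split_ifs with h
  · obtain ⟨l, h1, h2⟩ := exists_min_image (Sg.filter fun l => l % 8 = 5) id
      (filter_nonempty_iff.2 h)
    simp only [mem_filter, id, and_imp] at h1 h2
    rw [sum_eq_single ⟨l, h1.1⟩ (fun b _ hb => if_neg fun k => hb (Subtype.ext
      ((k.2 l h1.1 h1.2).antisymm (h2 b b.2 k.1)))) (by simp), if_pos ⟨h1.2, h2⟩]
  · exact sum_eq_zero fun b _ => if_neg fun k => h ⟨b, b.2, k.1⟩

theorem tmono (hC : SCFG) {m : ℕ} (i1 : Sg) {Ψ Ψ' : (Fin m → ℕ) → ℕ → ℝ} (hS : Sg ∈ Sm X)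
    (hm : m ≤ m0 X) (h5 : i1.1 % 8 = 5) (h : ∀ p P, Vd X Sg m i1 p P → Ψ p P ≤ Ψ' p P) :
    TG X Sg m Ψ ≤ TG X Sg m Ψ' := by
  refine hC.mono _ _ _ _ _ _ (fun p => ite_nonneg zero_le_one le_rfl)
    (fun p => ite_nonneg zero_le_one le_rfl) fun p P h1 h2 h3 h4 h6 =>
      div_le_div_of_nonneg_right (h p P ?_) (Nat.cast_nonneg _)
  have k := fun i => (ite_ne_right_iff.1 (h3 i)).1
  have k' := (ite_ne_right_iff.1 h4).1
  have s := (mem_Sm.1 hS).1
  refine ⟨hS, hm, ⟨CFG.inj h1 fun i a => (s _ a).1.not_gt (k i).2.2, ?_, k'.1, k'.2.1, ?_, h5⟩,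
    fun i => (k i).2.2, k'.2.2, ?_⟩
  · rintro (a | i)
    · exact ⟨(s _ a.2).2.1, (s _ a.2).2.2, Nat.zero_le _⟩
    · exact ⟨(k i).1, (k i).2.1, Nat.zero_le _⟩
  · rintro (a | i)
    · exact ((s _ a.2).1.trans_lt k'.2.2).ne
    · exact h2 i
  · rw [Nat.le_div_iff_mul_le (pos hS)] at h6
    rw [dd_eq]
    linarith

/-- triples -/
abbrev Tr : Type := Σ _ : Finset ℕ, Σ _ : Finset ℕ, ℕ

/-- the product -/
def dv (x : Tr) : ℕ := x.2.2 * ((∏ l ∈ x.1, l) * ∏ l ∈ x.2.1, l)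

/-- the conditions on a triple -/
def Ok (X : ℕ) (x : Tr) : Prop :=
  (∃ l ∈ x.1, l % 8 = 5) ∧ x.2.1.card ≤ m0 X ∧ (∀ p ∈ x.2.1, p.Prime ∧ p ≠ 2 ∧ YY X < p) ∧
    (x.2.2.Prime ∧ x.2.2 % 8 = 5 ∧ YY X < x.2.2) ∧ x.2.2 ∉ x.2.1 ∧ dv x ≤ X

/-- the admissible triples -/
noncomputable def AA (X : ℕ) : Finset Tr :=
  ((Sm X).sigma fun Sg => (range (X / (∏ l ∈ Sg, l) + 1)).powerset.sigma fun _ =>
    range (X / (∏ l ∈ Sg, l) + 1)).filter (Ok X)

/-- the number of choices -/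
noncomputable def NN (X d : ℕ) : ℕ := ((bg X d).filter fun l => l % 8 = 5).card

theorem str {x : Tr} (h : x ∈ AA X) : sm X (dv x) = x.1 ∧ bg X (dv x) = insert x.2.2 x.2.1 ∧
    dv x ∈ Icc 1 X ∧ NN X (dv x) = 1 + (x.2.1.filter fun l => l % 8 = 5).card := by
  obtain ⟨S, B, P⟩ := x
  obtain ⟨h1, -, -, h2, h3, h4, h5⟩ := mem_filter.1 h
  have s := (mem_Sm.1 (mem_sigma.1 h1).1).1
  have b0 : 0 < ∏ l ∈ B, l := prod_pos fun l hl => (h2 l hl).1.pos
  have s0 := pos (mem_sigma.1 h1).1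
  have e : (dv ⟨S, B, P⟩).primeFactors = insert P (S ∪ B) := by
    rw [dv, Nat.primeFactors_mul h3.1.ne_zero (mul_pos s0 b0).ne', Nat.primeFactors_mul s0.ne' b0.ne',
      h3.1.primeFactors, Nat.primeFactors_prod fun l hl => (s l hl).2.1,
      Nat.primeFactors_prod fun l hl => (h2 l hl).1, ← insert_eq]
  have e2 : bg X (dv ⟨S, B, P⟩) = insert P B := by
    rw [bg, e, filter_insert, if_pos h3.2.2, filter_union,
      filter_false_of_mem fun l hl => (s l hl).1.not_gt, filter_true_of_mem fun l hl => (h2 l hl).2.2,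
      empty_union]
  refine ⟨?_, e2, mem_Icc.2 ⟨mul_pos h3.1.pos (mul_pos s0 b0), h5⟩, ?_⟩
  · rw [sm, e, filter_insert, if_neg h3.2.2.not_ge, filter_union,
      filter_true_of_mem fun l hl => (s l hl).1,
      filter_false_of_mem fun l hl => (h2 l hl).2.2.not_ge, union_empty]
  · rw [NN, e2, filter_insert, if_pos h3.2.1,
      card_insert_of_notMem fun a => h4 (mem_filter.1 a).1, add_comm]

theorem gs_eq (hC : SCFG) (X : ℕ) (Q : ℕ → Prop) :
    GS X (fun Sg _ _ p P => ind (Q (dd (prs Sg p) P))) =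
      ∑ d ∈ Icc 1 X, ((AA X).filter fun x => dv x = d).card * (ind (Q d) / NN X d) := by
  have e : GS X (fun Sg _ _ p P => ind (Q (dd (prs Sg p) P))) = ∑ x ∈ AA X,
      ind (Q (dv x)) / (1 + (x.2.1.filter fun l => l % 8 = 5).card : ℕ) := by
    rw [AA, sum_filter, sum_sigma]
    refine sum_congr rfl fun S hS => ?_
    rw [sel, sum_sigma]
    split_ifs with h5
    swap
    · exact (sum_eq_zero fun B _ => sum_eq_zero fun P _ => if_neg fun k => h5 k.1).symm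
    have t : ∀ m : ℕ, 1 / (m.factorial : ℝ) * TG X S m (fun p P => ind (Q (dd (prs S p) P))) = _ :=
      fun m => by
      rw [TG, TS_congr (Ψ' := fun p P => ind (Q (dv ⟨S, univ.image p, P⟩)) /
          (1 + ((univ.image p).filter fun l => l % 8 = 5).card : ℕ)) fun p P hp => by
          rw [dd_eq, dv, prod_image hp.injOn, filter_image, card_image_of_injective _ hp, n5],
        hC.tsb m _ _ _ (fun B P => ind (Q (dv ⟨S, B, P⟩)) /
          (1 + (B.filter fun l => l % 8 = 5).card : ℕ))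
          (if_neg fun k => Nat.not_prime_zero k.1) (if_neg fun k => Nat.not_prime_zero k.1),
        one_div, inv_mul_cancel_left₀ (by positivity), powersetCard_eq_filter, sum_filter]
    simp only [t]
    rw [sum_comm]
    refine sum_congr rfl fun B _ => ?_
    simp only [sum_ite_eq, mem_range, Nat.lt_succ_iff]
    split_ifs with hm
    swap
    · exact (sum_eq_zero fun P _ => if_neg fun k => hm k.2.1).symm
    refine sum_congr rfl fun P _ => ?_
    have k : (∏ p ∈ B, p) * P ≤ X / ∏ l ∈ S, l ↔ dv ⟨S, B, P⟩ ≤ X := by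
      rw [Nat.le_div_iff_mul_le (pos hS), dv]
      exact iff_of_eq (congrArg (· ≤ X) (by ring))
    simp only [wB, wF, prod_boole, Ok, k, h5, hm, true_and, one_mul, ite_zero_mul, ← ite_and]
    exact if_congr (by tauto) rfl rfl
  rw [e, ← sum_fiberwise_of_maps_to (g := dv) fun x hx => (str hx).2.2.1]
  refine sum_congr rfl fun d _ => ?_
  rw [← nsmul_eq_mul, ← sum_const]
  refine sum_congr rfl fun x hx => ?_
  rw [← (mem_filter.1 hx).2, (str (mem_filter.1 hx).1).2.2.2]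

theorem fib_le (X d : ℕ) : ((AA X).filter fun x => dv x = d).card ≤ NN X d := by
  refine card_le_card_of_injOn (fun x => x.2.2) (fun x hx => ?_) ?_
  · obtain ⟨h1, rfl⟩ := mem_filter.1 hx
    exact mem_filter.2 ⟨(str h1).2.1 ▸ mem_insert_self _ _, (mem_filter.1 h1).2.2.2.2.1.2.1⟩
  · rintro ⟨S, B, P⟩ hx ⟨S', B', P'⟩ hy (rfl : P = P')
    obtain ⟨h1, h2⟩ := mem_filter.1 hx
    obtain ⟨k1, k2⟩ := mem_filter.1 hy
    obtain rfl : S = S' := (str h1).1.symm.trans (by rw [h2, ← k2]; exact (str k1).1)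
    have : insert P B = insert P B' :=
      (str h1).2.1.symm.trans (by rw [h2, ← k2]; exact (str k1).2.1)
    obtain rfl : B = B' := (erase_insert (mem_filter.1 h1).2.2.2.2.2.1).symm.trans
      ((congrArg (erase · P) this).trans (erase_insert (mem_filter.1 k1).2.2.2.2.2.1))
    rfl

theorem le_fib {d : ℕ} (h1 : d ≤ X) (h2 : Squarefree d) (h3 : Odd d) (h4 : Cov X d) :
    NN X d ≤ ((AA X).filter fun x => dv x = d).card := by
  refine card_le_card_of_injOn (fun P => ⟨sm X d, (bg X d).erase P, P⟩) (fun P hP => ?_)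
    fun P _ P' _ e => congrArg (fun x : Tr => x.2.2) e
  obtain ⟨p1, p2⟩ := mem_filter.1 hP
  have o : ∀ l ∈ d.primeFactors, l.Prime ∧ l ≠ 2 := fun l hl =>
    ⟨Nat.prime_of_mem_primeFactors hl, h3.ne_two_of_dvd_nat (Nat.dvd_of_mem_primeFactors hl)⟩
  have s : sm X d ∈ Sm X := mem_Sm.2
    ⟨fun l hl => ⟨(mem_filter.1 hl).2, o l (mem_filter.1 hl).1⟩, h4.2.2.1⟩
  have b : ∀ l ∈ bg X d, l.Prime ∧ l ≠ 2 ∧ YY X < l := fun l hl =>
    ⟨(o l (mem_filter.1 hl).1).1, (o l (mem_filter.1 hl).1).2, (mem_filter.1 hl).2⟩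
  have e1 : (∏ l ∈ sm X d, l) * ∏ l ∈ bg X d, l = d := by
    simp only [sm, bg, ← not_le (b := YY X)]
    rw [prod_filter_mul_prod_filter_not, Nat.prod_primeFactors_of_squarefree h2]
  have e2 : dv ⟨sm X d, (bg X d).erase P, P⟩ = d := by
    rw [dv, mul_left_comm, mul_prod_erase _ (fun l => l) p1, e1]
  have r : ∀ l ∈ bg X d, l ∈ range (X / (∏ l ∈ sm X d, l) + 1) := fun l hl => by
    rw [mem_range, Nat.lt_succ_iff, Nat.le_div_iff_mul_le (pos s), mul_comm]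
    exact (Nat.mul_le_mul_left _ (Nat.le_of_dvd (prod_pos fun l hl => (b l hl).1.pos)
      (dvd_prod_of_mem (fun l => l) hl))).trans (e1.le.trans h1)
  exact mem_filter.2 ⟨mem_filter.2 ⟨mem_sigma.2 ⟨s, mem_sigma.2
    ⟨mem_powerset.2 fun l hl => r l (mem_of_mem_erase hl), r P p1⟩⟩, h4.1,
    card_erase_le.trans h4.2.2.2, fun l hl => b l (mem_of_mem_erase hl),
    ⟨(b P p1).1, p2, (b P p1).2.2⟩, notMem_erase _ _, e2.le.trans h1⟩, e2⟩

theorem up (hC : SCFG) (X : ℕ) (Q : ℕ → Prop) :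
    GS X (fun Sg _ _ p P => ind (Q (dd (prs Sg p) P))) ≤ {d : ℕ | 1 ≤ d ∧ d ≤ X ∧ Q d}.ncard := by
  have : {d : ℕ | 1 ≤ d ∧ d ≤ X ∧ Q d} = ((Icc 1 X).filter Q : Finset ℕ) := by
    ext d
    simp [and_assoc]
  rw [gs_eq hC, this, Set.ncard_coe_finset, ← sum_boole]
  refine sum_le_sum fun d _ => ?_
  rw [mul_div_left_comm]
  exact mul_le_of_le_one_right (ind_nonneg _)
    (div_le_one_of_le₀ (Nat.cast_le.2 (fib_le X d)) (Nat.cast_nonneg _))

theorem low (hC : SCFG) (X : ℕ) (Q : ℕ → Prop) :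
    ({d : ℕ | d ≤ X ∧ Squarefree d ∧ Odd d ∧ Cov X d ∧ Q d}.ncard : ℝ) ≤
      GS X fun Sg _ _ p P => ind (Q (dd (prs Sg p) P)) := by
  have : {d : ℕ | d ≤ X ∧ Squarefree d ∧ Odd d ∧ Cov X d ∧ Q d} = ((Icc 1 X).filter
      fun d => Squarefree d ∧ Odd d ∧ Cov X d ∧ Q d : Finset ℕ) := by
    ext d
    simp only [Set.mem_ofPred_eq, coe_filter, mem_Icc]
    exact ⟨fun h => ⟨⟨h.2.2.1.pos, h.1⟩, h.2⟩, fun h => ⟨h.1.2, h.2⟩⟩
  rw [gs_eq hC, this, Set.ncard_coe_finset, ← sum_boole]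
  refine sum_le_sum fun d hd => ?_
  split_ifs with h
  · have n0 : 0 < NN X d := card_pos.2 (filter_nonempty_iff.2 h.2.2.1.2.1)
    rw [ind, if_pos h.2.2.2, mul_one_div, one_le_div (Nat.cast_pos.2 n0)]
    exact Nat.cast_le.2 (le_fib (mem_Icc.1 hd).2 h.1 h.2.1 h.2.2.1)
  · exact mul_nonneg (Nat.cast_nonneg _) (div_nonneg (ind_nonneg _) (Nat.cast_nonneg _))

end G0

open G0 in
theorem rowG0 : OfG0 := by
  intro hC
  have ta : ∀ (X : ℕ) (Sg : Finset ℕ) (m : ℕ) (Ψ Ψ' : (Fin m → ℕ) → ℕ → ℝ),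
      TG X Sg m (fun p P => Ψ p P + Ψ' p P) = TG X Sg m Ψ + TG X Sg m Ψ' := fun _ _ _ _ _ => by
    simp only [TG, add_div, hC.add]
  have tm : ∀ (X : ℕ) (Sg : Finset ℕ) (m : ℕ) (c : ℝ) (Ψ : (Fin m → ℕ) → ℕ → ℝ),
      TG X Sg m (fun p P => c * Ψ p P) = c * TG X Sg m Ψ := fun _ _ _ _ _ => by
    simp only [TG, mul_div_assoc, hC.cmul]
  have ga : ∀ (X : ℕ) (Ψ Ψ' : Fn),
      GS X (fun Sg m i1 p P => Ψ Sg m i1 p P + Ψ' Sg m i1 p P) = GS X Ψ + GS X Ψ' := fun _ _ _ => by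
    simp only [GS, ta, mul_add, sum_add_distrib, ite_add_zero]
  have gm : ∀ (X : ℕ) (c : ℝ) (Ψ : Fn),
      GS X (fun Sg m i1 p P => c * Ψ Sg m i1 p P) = c * GS X Ψ := fun _ c _ => by
    simp only [GS, tm, mul_sum, mul_ite, mul_zero, mul_left_comm c]
  refine ⟨fun X Sg m i1 Ψ Ψ' => tmono hC i1, ta, tm, fun κ s X Sg m Ψ => ?_, fun X Ψ Ψ' h => ?_, ga,
    gm, fun κ s X Ψ => ?_, fun X Ψ Ψ' E hE h => ?_, up hC, fun X c hc => ?_, low hC⟩
  · simp only [TG, sum_div, hC.sum]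
  · refine sum_le_sum fun S hS => sum_le_sum fun i1 _ => ?_
    split_ifs with k
    · exact sum_le_sum fun m hm => mul_le_mul_of_nonneg_left
        (tmono hC i1 hS (Nat.lt_succ_iff.1 (mem_range.1 hm)) k.1 (h S m i1)) (by positivity)
    · exact le_rfl
  · induction s using Finset.cons_induction with
    | empty => simpa using gm X 0 fun _ _ _ _ _ => 0
    | cons a s ha ih => simp only [sum_cons, ← ih, ← ga]
  · have e3 : ∑ m ∈ range (m0 X + 1), 1 / (m.factorial : ℝ) ≤ 3 := by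
      have := Real.sum_le_exp_of_nonneg zero_le_one (m0 X + 1)
      simp only [one_pow] at this
      linarith [Real.exp_one_lt_d9]
    have e4 := mul_le_mul_of_nonneg_left (FIN.sum_div X (Sm X)
      fun S hS l hl => ((mem_Sm.1 hS).1 l hl).2.1) (mul_nonneg zero_le_three hE)
    rw [mul_assoc (3 * E)]
    refine le_trans ?_ (add_le_add_right e4 _)
    rw [mul_sum, GS, GS, ← sum_add_distrib]
    refine sum_le_sum fun S hS => ?_
    have n0 : 0 ≤ E * (X / ∏ l ∈ S, l : ℕ) := mul_nonneg hE (Nat.cast_nonneg _)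
    have e5 := (sel (Sg := S) (3 * E * (X / ∏ l ∈ S, l : ℕ))).trans_le
      (ite_le_sup _ _ _ |>.trans (sup_le le_rfl (by rw [mul_assoc]; positivity)))
    refine le_trans ?_ (add_le_add_right e5 _)
    rw [← sum_add_distrib]
    refine sum_le_sum fun i1 _ => ?_
    split_ifs with k
    · refine (sum_le_sum fun m hm => mul_le_mul_of_nonneg_left
        (h S hS m (Nat.lt_succ_iff.1 (mem_range.1 hm)) i1 k.1) (by positivity)).trans ?_
      simp only [mul_add, sum_add_distrib, ← sum_mul]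
      rw [mul_assoc]
      exact add_le_add_right (mul_le_mul_of_nonneg_right e3 n0) _
    · exact (add_zero _).ge
  · have h1 := up hC X fun _ => True
    have h2 := gm X c fun _ _ _ _ _ => ind True
    have h3 : {d : ℕ | 1 ≤ d ∧ d ≤ X ∧ True} = (Icc 1 X : Finset ℕ) := by
      ext d
      simp
    rw [h3, Set.ncard_coe_finset, Nat.card_Icc, Nat.add_sub_cancel] at h1
    have h4 := mul_le_mul_of_nonneg_left h1 hc
    rw [← h2] at h4
    simpa only [ind, if_true, mul_one] using h4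

end Pool.Agent.MP_1246c0_nt.H25
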