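import Pool.Agent.MP_1246c0_nt.H25.SpecA
import Pool.Agent.MP_db5b97_nt.H10.NT1

/-! The tower of quadratic extensions attached to a character of the class group. -/

namespace Pool.Agent.MP_1246c0_nt.H25

open NumberField IsDedekindDomain Polynomial Pool.Agent.MP_db5b97_nt.H85
open Pool.Agent.MP_1246c0_nt.H12

namespace TWR

/-! ### Residues modulo powers of two -/

/-- reduction modulo two -/
def rd (J : ℕ) : ZMod (2 ^ (J + 1)) →+* F2 := ZMod.castHom (dvd_pow_self 2 J.succ_ne_zero) F2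

/-- doubling -/
noncomputable def dbl (J : ℕ) : ZMod (2 ^ J) →+ ZMod (2 ^ (J + 1)) :=
  ZMod.lift (2 ^ J) ⟨zmultiplesHom _ 2, by
    have : ((2 ^ (J + 1) : ℕ) : ZMod (2 ^ (J + 1))) = 0 := ZMod.natCast_self _
    rw [zmultiplesHom_apply, zsmul_eq_mul]
    push_cast at this ⊢
    rw [← pow_succ]
    exact this⟩

theorem dbl_int (J : ℕ) (n : ℤ) : dbl J (n : ZMod (2 ^ J)) = ((n * 2 : ℤ) : ZMod (2 ^ (J + 1))) := by
  rw [dbl, ZMod.lift_coe]
  simp

theorem dbl_inj (J : ℕ) : Function.Injective (dbl J) := by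
  rw [injective_iff_map_eq_zero]
  intro t ht
  obtain ⟨n, rfl⟩ := ZMod.intCast_surjective t
  rw [dbl_int, ZMod.intCast_zmod_eq_zero_iff_dvd] at ht
  rw [ZMod.intCast_zmod_eq_zero_iff_dvd]
  push_cast at ht ⊢
  rw [pow_succ] at ht
  exact Int.dvd_of_mul_dvd_mul_right two_ne_zero ht

theorem dbl_surj (J : ℕ) (t : ZMod (2 ^ (J + 1))) (h : rd J t = 0) : ∃ s, dbl J s = t := by
  obtain ⟨n, rfl⟩ := ZMod.intCast_surjective t
  rw [map_intCast, ZMod.intCast_zmod_eq_zero_iff_dvd] at h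
  obtain ⟨m, rfl⟩ := h
  exact ⟨m, by rw [dbl_int]; push_cast; ring⟩

theorem unit_iff (J : ℕ) (t : ZMod (2 ^ (J + 1))) : IsUnit t ↔ rd J t ≠ 0 := by
  refine ⟨fun h => (h.map (rd J)).ne_zero, fun h => ?_⟩
  obtain ⟨n, rfl⟩ := ZMod.natCast_zmod_surjective t
  rw [map_natCast, Ne, ZMod.natCast_eq_zero_iff] at h
  rw [ZMod.isUnit_iff_coprime]
  exact (((Nat.Prime.coprime_iff_not_dvd Nat.prime_two).2 h).symm).pow_right _

theorem half {A : Type} [AddCommGroup A] (J : ℕ) (φ : A →+ ZMod (2 ^ (J + 1)))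
    (h : ∀ D, rd J (φ D) = 0) : ∃ φ' : A →+ ZMod (2 ^ J),
      (∀ D (k : ℕ), k • φ' D = 0 ↔ k • φ D = 0) ∧ ∀ D u, IsUnit u → φ D = 2 • u → IsUnit (φ' D) := by
  choose c hc using fun D => dbl_surj J (φ D) (h D)
  refine ⟨AddMonoidHom.mk' c fun a b => dbl_inj J (by rw [map_add, hc, hc, hc, map_add]),
    fun D k => ?_, fun D u hu hD => ?_⟩
  · show k • c D = 0 ↔ _
    rw [← hc, ← map_nsmul, map_eq_zero_iff _ (dbl_inj J)]
  · show IsUnit (c D)
    have e : c D = ZMod.castHom (pow_dvd_pow 2 J.le_succ) (ZMod (2 ^ J)) u := by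
      refine dbl_inj J ?_
      obtain ⟨n, rfl⟩ := ZMod.intCast_surjective u
      rw [hc, hD, map_intCast, dbl_int]
      push_cast
      ring
    rw [e]
    exact hu.map _

/-! ### Quadratic extensions -/

section Quad

variable {L E : Type} [Field L] [NumberField L] [Field E] [NumberField E] [Algebra L E]

theorem rank_two (x : L) (z : E) (hz : z * z = algebraMap L E x) (hn : z ∉ (algebraMap L E).range)
    (ht : IntermediateField.adjoin L {z} = ⊤) : Module.finrank L E = 2 := by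
  have hi : IsIntegral L z := Algebra.IsIntegral.isIntegral z
  rw [← IntermediateField.finrank_top', ← ht, IntermediateField.adjoin.finrank hi]
  refine le_antisymm ?_ ((minpoly.two_le_natDegree_iff hi).2 hn)
  have hm : (X ^ 2 - C x : L[X]).Monic := monic_X_pow_sub_C x two_ne_zero
  have h1 := minpoly.min L z hm (by simp [pow_two, hz])
  rw [degree_X_pow_sub_C two_pos] at h1
  exact natDegree_le_iff_degree_le.2 h1

omit [NumberField L] in
theorem real_two (hL : IsTotallyReal L) (x : L) (z : E) (hz : z * z = algebraMap L E x)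
    (hx : ∀ ρ : L →+* ℝ, 0 < ρ x) (ht : IntermediateField.adjoin L {z} = ⊤) : IsTotallyReal E := by
  refine ⟨fun v => ?_⟩
  obtain ⟨φ, rfl⟩ : ∃ φ, InfinitePlace.mk φ = v := ⟨_, v.mk_embedding⟩
  rw [InfinitePlace.isReal_mk_iff, ComplexEmbedding.isReal_iff]
  have hr := IsTotallyReal.complexEmbedding_isReal (φ.comp (algebraMap L E))
  have h1 : ∀ y : L, φ (algebraMap L E y) = ((hr.embedding y : ℝ) : ℂ) := fun y =>
    (hr.coe_embedding_apply y).symm
  have h2 : starRingEnd ℂ (φ z) = φ z := by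
    have h3 : φ z * φ z = ((hr.embedding x : ℝ) : ℂ) := by rw [← map_mul, hz, h1]
    have h4 := congrArg Complex.re h3
    have h5 := congrArg Complex.im h3
    simp only [Complex.mul_re, Complex.mul_im, Complex.ofReal_re, Complex.ofReal_im] at h4 h5
    have h6 := hx hr.embedding
    rw [Complex.conj_eq_iff_im]
    by_contra h7
    have h8 : (φ z).re = 0 := by
      have : (φ z).re * (φ z).im = 0 := by linarith
      exact (mul_eq_zero.1 this).resolve_right h7
    rw [h8] at h4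
    nlinarith [mul_self_nonneg (φ z).im]
  ext e
  have he : e ∈ IntermediateField.adjoin L {z} := ht ▸ IntermediateField.mem_top
  rw [ComplexEmbedding.conjugate_coe_eq]
  induction he using IntermediateField.adjoin_induction with
  | mem y hy => rw [Set.mem_singleton_iff.1 hy, h2]
  | algebraMap y => rw [h1, Complex.conj_ofReal]
  | add a b _ _ ha hb => rw [map_add, map_add, ha, hb]
  | inv a _ ha => rw [map_inv₀, map_inv₀, ha]
  | mul a b _ _ ha hb => rw [map_mul, map_mul, ha, hb]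

theorem nrm_pow (v : Sp E) : Ideal.absNorm v.asIdeal =
    Ideal.absNorm (und L v).asIdeal ^ v.asIdeal.inertiaDeg (𝓞 L) := by
  have := v.isPrime
  have : v.asIdeal.LiesOver (und L v).asIdeal := ⟨rfl⟩
  exact (Ideal.absNorm_pow_inertiaDeg (und L v).asIdeal v.asIdeal).symm

theorem two_le (w : Sp L) : 2 ≤ Ideal.absNorm w.asIdeal := by
  have h0 : Ideal.absNorm w.asIdeal ≠ 0 := fun h => w.ne_bot (Ideal.absNorm_eq_zero_iff.1 h)
  have h1 : Ideal.absNorm w.asIdeal ≠ 1 := fun h =>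
    w.isPrime.ne_top (Ideal.absNorm_eq_one_iff.1 h)
  omega

theorem ex_ord (w : Sp L) (k : ℤ) : ∃ y : Un L, ord w y = k := by
  obtain ⟨π, hπ⟩ := w.valuation_exists_uniformizer L
  have h0 : π ≠ 0 := fun h => WithZero.exp_ne_zero (by rw [← hπ, h, map_zero])
  refine ⟨k • Un.mk π h0, ?_⟩
  rw [map_zsmul, ord_apply, Un.val_mk, hπ]
  simp

end Quad

/-- adjunction of a square root -/
noncomputable abbrev adj (L : IntermediateField ℚ Om) (a : Om) : IntermediateField ℚ Om :=
  L ⊔ IntermediateField.adjoin ℚ {sqr a}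

theorem nf_adj (L : IntermediateField ℚ Om) [NumberField L] (a : Om) : NumberField (adj L a) :=
  have : FiniteDimensional ℚ (IntermediateField.adjoin ℚ {sqr a}) :=
    IntermediateField.finiteDimensional_adjoin
      fun x _ => (Algebra.IsAlgebraic.isAlgebraic x).isIntegral
  have : FiniteDimensional ℚ (adj L a) := IntermediateField.finiteDimensional_sup _ _
  NumberField.of_module_finite ℚ _

theorem mem_adj (L : IntermediateField ℚ Om) (a : Om) : sqr a ∈ adj L a :=
  (le_sup_right : _ ≤ adj L a) (IntermediateField.mem_adjoin_simple_self ℚ _)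

theorem fix_adj (L : IntermediateField ℚ Om) (a : Om) (h : Ga) :
    h ∈ (adj L a).fixingSubgroup ↔ h ∈ L.fixingSubgroup ∧ kch a h = 0 := by
  have e : kch a h = 0 ↔ h (sqr a) = sqr a := by
    unfold kch
    split_ifs with h1 <;> simp [h1]
  rw [IntermediateField.fixingSubgroup_sup, Subgroup.mem_inf, e]
  refine and_congr_right fun _ => ⟨fun h1 => ?_, fun h1 => ?_⟩
  · exact (IntermediateField.mem_fixingSubgroup_iff _ _).1 h1 _
      (IntermediateField.mem_adjoin_simple_self ℚ _)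
  · have : IntermediateField.adjoin ℚ {sqr a} ≤
        IntermediateField.fixedField (MulAction.stabilizer Ga (sqr a)) := by
      rw [IntermediateField.adjoin_simple_le_iff]
      exact fun g => g.2
    exact (IntermediateField.le_iff_le _ _).1 this h1

theorem ch_le : ∀ (J : ℕ) (L E : IntermediateField ℚ Om), Ch J L E → L ≤ E
  | 0, _, _, h => le_of_eq (Eq.symm h)
  | J + 1, _, E, ⟨_, _, _, h⟩ => le_sup_left.trans (ch_le J _ E h)

theorem adj_top (L : IntermediateField ℚ Om) (a : Om) [Algebra L (adj L a)]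
    (hc : ∀ y : L, ((algebraMap L (adj L a) y : adj L a) : Om) = y) :
    IntermediateField.adjoin L {(⟨sqr a, mem_adj L a⟩ : adj L a)} = ⊤ := by
  rw [eq_top_iff]
  intro e _
  have h1 : adj L a ≤ ((IntermediateField.adjoin L {(⟨sqr a, mem_adj L a⟩ : adj L a)}).restrictScalars
      ℚ).map (adj L a).val := by
    refine sup_le (fun y hy => ?_) ?_
    · exact ⟨algebraMap L (adj L a) ⟨y, hy⟩, (IntermediateField.adjoin L
        {(⟨sqr a, mem_adj L a⟩ : adj L a)}).algebraMap_mem ⟨y, hy⟩, hc _⟩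
    · rw [IntermediateField.adjoin_simple_le_iff]
      exact ⟨⟨sqr a, mem_adj L a⟩, IntermediateField.mem_adjoin_simple_self L _, rfl⟩
  obtain ⟨t, ht, h2⟩ := h1 e.2
  have : t = e := Subtype.ext h2
  exact this ▸ ht

theorem ov_und (L E : IntermediateField ℚ Om) [NumberField L] [NumberField E] [Algebra L E]
    (hc : ∀ y : L, ((algebraMap L E y : E) : Om) = y) (Q : Ideal OO) (v : Sp E) (hv : Ov E Q v) :
    Ov L Q (und L v) := by
  intro x
  have e : algebraMap (𝓞 E) OO (algebraMap (𝓞 L) (𝓞 E) x) = algebraMap (𝓞 L) OO x :=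
    RingOfIntegers.ext (hc _)
  rw [← e, ← hv]
  rfl

theorem ov_uniq (L : IntermediateField ℚ Om) [NumberField L] (Q : Ideal OO) (w w' : Sp L)
    (h : Ov L Q w) (h' : Ov L Q w') : w = w' :=
  HeightOneSpectrum.ext (Ideal.ext fun x => (h x).trans (h' x).symm)

section Step

variable (hL : SLIFT) (hK : SKUM) {L : IntermediateField ℚ Om} [NumberField L] {χ : Dv L 2 →+ F2}
  {x : Un L}

omit [NumberField L] in
theorem fx {h : Ga} (hh : h ∈ L.fixingSubgroup) (y : L) : h (y : Om) = y :=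
  (IntermediateField.mem_fixingSubgroup_iff _ _).1 hh _ y.2

include hK in
theorem kch_pow {h : Ga} (hh : h ∈ L.fixingSubgroup) (y : L) (k : ℕ) :
    kch (y : Om) (h ^ k) = k • kch (y : Om) h := by
  induction k with
  | zero => simp [kch]
  | succ k ih => rw [pow_succ, hK.mul _ _ _ (fx (pow_mem hh k) y) (fx hh y), ih, succ_nsmul]

include hK in
theorem frob (hx : ∀ w : Pr L 2, Even (ord w.1 x) ∧ ∀ y : Un L, ord w.1 (x - 2 • y) = 0 →
      qv w.1 (x - 2 • y).val = χ (Finsupp.single w 1)) (Q : Ideal OO) (w : Pr L 2)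
    (hQ : Q.IsMaximal) (hw : Ov L Q w.1) (F : Ga) (hF : F ∈ L.fixingSubgroup)
    (hb : Fb Q (Ideal.absNorm w.1.asIdeal) F) :
    kch (x.val : Om) F = χ (Finsupp.single w 1) := by
  obtain ⟨⟨k, hk⟩, h2⟩ := hx w
  obtain ⟨y, hy⟩ := ex_ord w.1 k
  have h0 : ord w.1 (x - 2 • y) = 0 := by rw [map_sub, map_nsmul, hy, hk, two_nsmul, sub_self]
  rw [← h2 y h0, ← hK.frb L Q w _ F hQ hw h0 hF hb]
  have e : (x.val : Om) = ((x - 2 • y).val : Om) * ((2 • y).val : Om) := by
    rw [← IntermediateField.coe_mul, ← Un.val_add, sub_add_cancel]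
  have n0 : ∀ u : Un L, (u.val : Om) ≠ 0 := fun u => by simp
  rw [e, hK.mul' _ _ F (n0 _) (n0 _) (fx hF _) (fx hF _),
    (hK.sq ((2 • y).val : Om) (y.val : Om) F (by simp) (fx hF _)).2 (fx hF _), add_zero]

include hL hK in
theorem unram (h3 : x ∈ Ray L 2 3) (hx : ∀ w : Pr L 2, Even (ord w.1 x)) (Q : Ideal OO)
    (hQ : Q.IsMaximal) (h : Ga) (hh : h ∈ L.fixingSubgroup) (hi : In Q h) :
    h ∈ (adj L (x.val : Om)).fixingSubgroup := by
  refine (fix_adj L _ h).2 ⟨hh, ?_⟩
  obtain ⟨w, hw⟩ := hL.und L Q hQ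
  by_cases h2 : ((2 : ℕ) : 𝓞 L) ∈ w.asIdeal
  · have : (2 : OO) ∈ Q := by
      have := (hw _).1 h2
      rwa [map_natCast] at this
    exact (hK.two L Q x h hQ this hh).2 h3 ((hL.grp Q hQ).2.2.1 h hi)
  · exact hK.unr L Q ⟨w, h2⟩ x h hQ hw (hx _) hh hi

end Step

end TWR

open TWR in
theorem rowTWR : OfTWR := by
  intro hRD _ hEX hL hK J
  induction J with
  | zero =>
    intro L _ χ _ _ _ _
    refine ⟨L, rfl, fun _ _ _ hh _ => hh, fun _ _ _ _ hh _ => hh, fun Q w _ _ F hF _ k => ?_⟩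
    exact iff_of_true (pow_mem hF k) ((inferInstance : Subsingleton (ZMod 1)).elim _ _)
  | succ J ih =>
    intro L _ χ hR hC hχ ⟨D0, hD0⟩
    obtain ⟨χ1, hχ1⟩ : ∃ χ1 : Dv L 2 →+ F2, ∀ D, χ1 D = rd J (χ D) :=
      ⟨(rd J).toAddMonoidHom.comp χ, fun _ => rfl⟩
    obtain ⟨x, h3, hpos, hx⟩ := hEX L χ1 hR hC fun y => by rw [hχ1, hχ, map_zero]
    have hF2 : ∀ t : F2, t = 0 ∨ t = 1 := by decide
    obtain ⟨w0, hw0⟩ : ∃ w0, χ1 (Finsupp.single w0 1) = 1 := by
      by_contra hn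
      have : χ1 = 0 := by
        refine Finsupp.addHom_ext' fun w => AddMonoidHom.ext_int ?_
        exact (hF2 _).resolve_right fun h => hn ⟨w, h⟩
      exact (unit_iff J _).1 hD0 (by rw [← hχ1, this]; rfl)
    have hn : sqr (x.val : Om) ∉ L := by
      intro hm
      obtain ⟨Q, hQ, hw⟩ := hL.ovr L w0.1
      obtain ⟨F, hF, hb⟩ := hL.frob L Q w0.1 hQ hw
      have h1 := frob hK hx Q w0 hQ hw F hF hb
      rw [hw0, kch, if_pos (fx hF ⟨_, hm⟩)] at h1
      exact zero_ne_one h1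
    have := nf_adj L (x.val : Om)
    have hle : L ≤ adj L (x.val : Om) := le_sup_left
    let : Algebra L (adj L (x.val : Om)) := (IntermediateField.inclusion hle).toRingHom.toAlgebra
    have hc : ∀ y : L, ((algebraMap L (adj L (x.val : Om)) y : adj L (x.val : Om)) : Om) = y :=
      fun _ => rfl
    have hz : (⟨sqr (x.val : Om), mem_adj L _⟩ : adj L (x.val : Om)) * ⟨_, mem_adj L _⟩
        = algebraMap L _ x.val := Subtype.ext (sqr_mul _)
    have ht := adj_top L (x.val : Om) hc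
    have hrk := rank_two x.val _ hz (by
      rintro ⟨y, hy⟩
      have e : (y : Om) = sqr (x.val : Om) := congrArg Subtype.val hy
      exact hn (e ▸ y.2)) ht
    have hR' := real_two hR x.val _ hz hpos ht
    have hun := unram hL hK h3 fun w => (hx w).1
    have loc : ∀ (Q : Ideal OO) (v : Pr (adj L (x.val : Om)) 2) (F : Ga), Q.IsMaximal →
        Ov _ Q v.1 → F ∈ L.fixingSubgroup → Fb Q (Ideal.absNorm (v.und L).1.asIdeal) F →
        ∀ f : ℕ, (χ1 (Finsupp.single (v.und L) 1) = 0 ∧ f = 1 ∨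
          χ1 (Finsupp.single (v.und L) 1) = 1 ∧ f = 2) →
        F ^ f ∈ (adj L (x.val : Om)).fixingSubgroup ∧
          Fb Q (Ideal.absNorm v.1.asIdeal) (F ^ f) ∧
          nrD _ 2 L (Finsupp.single v 1) = f • Finsupp.single (v.und L) 1 := by
      intro Q v F hQ hv hF hb f hf
      have hw : Ov L Q (v.und L).1 := ov_und L _ hc Q v.1 hv
      have h1 := frob hK hx Q (v.und L) hQ hw F hF hb
      have h2 : F ^ f ∈ (adj L (x.val : Om)).fixingSubgroup := by
        refine (fix_adj L _ _).2 ⟨pow_mem hF f, ?_⟩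
        rw [kch_pow hK hF, h1]
        rcases hf with ⟨h, rfl⟩ | ⟨h, rfl⟩ <;> rw [h] <;> rfl
      have h4 := hL.deg L _ Q (v.und L).1 v.1 F f hQ hw hv hle hF hb
        (fun i hi hI => hun Q hQ i hi hI) (by omega) h2 (by
          intro k hk hkf hm
          rcases hf with ⟨_, rfl⟩ | ⟨h, rfl⟩
          · omega
          · obtain rfl : k = 1 := by omega
            have := ((fix_adj L _ _).1 hm).2
            rw [pow_one, h1, h] at this
            exact one_ne_zero this)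
      refine ⟨h2, h4 ▸ (hL.grp Q hQ).2.2.2.2.2.2.2.2 _ F f hb, ?_⟩
      have h5 : v.1.asIdeal.inertiaDeg (𝓞 L) = f :=
        Nat.pow_right_injective (two_le (v.und L).1) ((nrm_pow v.1).symm.trans h4)
      rw [MP_db5b97_nt.H10.nrD_single, h5]
      simp
    have loc' : ∀ (v : Pr (adj L (x.val : Om)) 2) (f : ℕ),
        (χ1 (Finsupp.single (v.und L) 1) = 0 ∧ f = 1 ∨
          χ1 (Finsupp.single (v.und L) 1) = 1 ∧ f = 2) →
        nrD _ 2 L (Finsupp.single v 1) = f • Finsupp.single (v.und L) 1 := by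
      intro v f hf
      obtain ⟨Q, hQ, hv⟩ := hL.ovr _ v.1
      obtain ⟨F, hF, hb⟩ := hL.frob L Q (v.und L).1 hQ (ov_und L _ hc Q v.1 hv)
      exact (loc Q v F hQ hv hF hb f hf).2.2
    obtain ⟨χ', hk, hu⟩ := half J (χ.comp (nrD (adj L (x.val : Om)) 2 L)) (by
      have : χ1.comp (nrD (adj L (x.val : Om)) 2 L) = 0 := by
        refine Finsupp.addHom_ext' fun v => AddMonoidHom.ext_int ?_
        show χ1 (nrD _ 2 L (Finsupp.single v 1)) = 0
        rcases hF2 (χ1 (Finsupp.single (v.und L) 1)) with h | h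
        · rw [loc' v 1 (Or.inl ⟨h, rfl⟩), map_nsmul, h]
          rfl
        · rw [loc' v 2 (Or.inr ⟨h, rfl⟩), map_nsmul, h]
          rfl
      intro D
      exact (hχ1 _).symm.trans (DFunLike.congr_fun this D))
    obtain ⟨E, hE, hT⟩ := ih (adj L (x.val : Om)) χ' hR' (hRD L _ hrk hR' hC) (by
      intro y
      have := (hk (dv _ 2 y) 1).2 (by
        rw [one_nsmul, AddMonoidHom.comp_apply, ← MP_db5b97_nt.H10.dv_nrm, hχ])
      rwa [one_nsmul] at this) (by
      obtain ⟨v, rfl⟩ := MP_db5b97_nt.H10.und_surj_pr (F := adj L (x.val : Om)) w0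
      refine ⟨Finsupp.single v 1, hu _ (χ (Finsupp.single (v.und L) 1)) ?_ ?_⟩
      · rw [unit_iff, ← hχ1, hw0]
        exact one_ne_zero
      · rw [AddMonoidHom.comp_apply, loc' v 2 (Or.inr ⟨hw0, rfl⟩), map_nsmul])
    refine ⟨E, ⟨x.val, x.val.2, hn, hE⟩, fun Q hQ h hh hi => hT.unr Q hQ h (hun Q hQ h hh hi) hi,
      fun Q hQ h2 h hh hd => hT.two Q hQ h2 h
        ((fix_adj L _ h).2 ⟨hh, (hK.two L Q x h hQ h2 hh).2 h3 hd⟩) hd,
      fun Q w hQ hw F hF hb k => ?_⟩
    obtain ⟨v0, hv⟩ := hL.und (adj L (x.val : Om)) Q hQ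
    have e0 : und L v0 = w.1 := ov_uniq L Q _ _ (ov_und L _ hc Q v0 hv) hw
    have h2 : ((2 : ℕ) : 𝓞 (adj L (x.val : Om))) ∉ v0.asIdeal := fun h =>
      w.2 (e0 ▸ (MP_db5b97_nt.H10.mem_und v0).2 h)
    obtain ⟨v, rfl⟩ : ∃ v : Pr (adj L (x.val : Om)) 2, v.1 = v0 := ⟨⟨v0, h2⟩, rfl⟩
    obtain rfl : v.und L = w := Subtype.ext e0
    have key : ∀ f : ℕ, (χ1 (Finsupp.single (v.und L) 1) = 0 ∧ f = 1 ∨
          χ1 (Finsupp.single (v.und L) 1) = 1 ∧ f = 2) → ∀ j : ℕ,
        F ^ (f * j) ∈ E.fixingSubgroup ↔ (f * j) • χ (Finsupp.single (v.und L) 1) = 0 := by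
      intro f hf j
      obtain ⟨a1, a2, a3⟩ := loc Q v F hQ hv hF hb f hf
      rw [pow_mul, hT.frb Q v hQ hv _ a1 a2 j, hk, AddMonoidHom.comp_apply, a3, map_nsmul,
        mul_nsmul]
    rcases hF2 (χ1 (Finsupp.single (v.und L) 1)) with h | h
    · simpa using key 1 (Or.inl ⟨h, rfl⟩) k
    · rcases Nat.even_or_odd' k with ⟨j, rfl | rfl⟩
      · exact key 2 (Or.inr ⟨h, rfl⟩) j
      · have hodd : (2 * j + 1) • (1 : F2) ≠ 0 := by
          rw [succ_nsmul, mul_nsmul]
          have : 2 • (1 : F2) = 0 := rfl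
          rw [this, nsmul_zero, zero_add]
          exact one_ne_zero
        refine iff_of_false (fun hm => hodd ?_) fun hm => hodd ?_
        · have := ((fix_adj L _ _).1 (IntermediateField.fixingSubgroup_antitone (ch_le J _ E hE) hm)).2
          rwa [kch_pow hK hF, frob hK hx Q _ hQ hw F hF hb, h] at this
        · rw [← h, hχ1, ← map_nsmul, hm, map_zero]

end Pool.Agent.MP_1246c0_nt.H25
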