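import Pool.Agent.MP_1246c0_nt.H25.SpecC
import Pool.Agent.MP_1246c0_nt.H35.V1
import Pool.Agent.MP_1246c0_nt.H92.V2
import Pool.Agent.MP_1246c0_nt.H10.XLWL

/-! Solutions of high level. -/

namespace Pool.Agent.MP_1246c0_nt.H25

open Polynomial Finset Matrix IsLocalRing Pool.Agent.MP_db5b97_nt.H85
open Pool.Agent.MP_1246c0_nt.H12

namespace HIG

variable {Λ R ι : Type} [CommRing Λ] [CommRing R] [Fintype ι] [DecidableEq ι]

/-- the system over a ring -/
structure Sys (φ : Λ →+* R) (lv : ι → ℕ) (M : Matrix ι ι Λ) (c : ι → Λ) (a : ℕ) (s u : R)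
    (x : ι → R) : Prop where
  lo : ∀ l, lv l < a → x l = 0
  mid : ∀ l, lv l = a → x l = u * ∑ l', φ (M l l') * x l'
  top : ∀ l, lv l = a + 1 → ∑ l', φ (M l l') * x l' = s * x l
  hi : ∀ l, a + 1 < lv l → ∑ l', φ (M l l') * x l' = 0
  inf : ∑ l, φ (c l) * x l = 0

/-- the equations with a pencil -/
def Eqs (φ : Λ →+* R) (S : Matrix ι ι Λ) (c : ι → Λ) (P : Finset ι) (b : Bool) (ν : R)
    (y : ι → R) : Prop :=
  (∀ l, ∑ l', φ (S l l') * (if l' ∈ P ∧ b = true then ν * y l' else y l') =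
    if l ∈ P then (if b = true then y l else ν * y l) else 0) ∧
  ∑ l, φ (c l) * (if l ∈ P ∧ b = true then ν * y l else y l) = 0

variable {φ : Λ →+* R} {lv : ι → ℕ} {M : Matrix ι ι Λ} {c : ι → Λ} {a : ℕ} {s u : R} {x : ι → R}

theorem eqF (h : Sys φ lv M c a s 0 x) :
    Eqs (ι := {l // a + 1 ≤ lv l}) φ (M.submatrix Subtype.val Subtype.val) (fun l => c l.1)
      (univ.filter fun l => lv l.1 = a + 1) false s fun l => x l.1 := by
  have z : ∀ l, ¬a + 1 ≤ lv l → x l = 0 := fun l hl => by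
    rcases (Nat.lt_succ_iff.1 (not_le.1 hl)).eq_or_lt with e | e
    · rw [h.mid l e, zero_mul]
    · exact h.lo l e
  have sm : ∀ f : ι → R, ∑ l : {l // a + 1 ≤ lv l}, f l.1 * x l.1 = ∑ l, f l * x l := fun f =>
    V1.sum_sub (fun l => f l * x l) fun l hl => by rw [z l hl, mul_zero]
  simp only [Eqs, Bool.false_eq_true, and_false, if_false, submatrix_apply, mem_filter, mem_univ,
    true_and]
  refine ⟨fun l => (sm fun l' => φ (M l.1 l')).trans ?_, (sm fun l => φ (c l)).trans h.inf⟩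
  split_ifs with e
  · exact h.top _ e
  · exact h.hi _ (lt_of_le_of_ne l.2 (Ne.symm e))

theorem eqT (h : Sys φ lv M c a 0 u x) :
    Eqs (ι := {l // a ≤ lv l}) φ (M.submatrix Subtype.val Subtype.val) (fun l => c l.1)
      (univ.filter fun l => lv l.1 = a) true u
      fun l => if lv l.1 = a then ∑ l', φ (M l.1 l') * x l' else x l.1 := by
  have sm : ∀ f : ι → R, ∑ l : {l // a ≤ lv l}, f l.1 * x l.1 = ∑ l, f l * x l := fun f =>
    V1.sum_sub (fun l => f l * x l) fun l hl => by rw [h.lo l (not_le.1 hl), mul_zero]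
  have e : ∀ l : {l // a ≤ lv l}, (if lv l.1 = a then
      u * (if lv l.1 = a then ∑ l', φ (M l.1 l') * x l' else x l.1)
      else if lv l.1 = a then ∑ l', φ (M l.1 l') * x l' else x l.1) = x l.1 := fun l => by
    split_ifs with e
    · exact (h.mid _ e).symm
    · rfl
  simp only [Eqs, and_true, if_true, submatrix_apply, mem_filter, mem_univ, true_and, e]
  refine ⟨fun l => (sm fun l' => φ (M l.1 l')).trans ?_, (sm fun l => φ (c l)).trans h.inf⟩
  split_ifs with e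
  · rfl
  · rcases (Nat.succ_le_of_lt (lt_of_le_of_ne l.2 (Ne.symm e))).eq_or_lt with e' | e'
    · rw [h.top _ e'.symm, zero_mul]
    · exact h.hi _ e'

theorem toM [Finite R] {au : Λ →+* F2} {τ : Λ} {N f : ℕ} {P : Finset ι} {b : Bool} {ν : R}
    (h : Eqs φ M c P b ν x) (q : ℤ[X]) (q1 : q.Monic) (q2 : Irreducible (q.map (Int.castRingHom F2)))
    (q3 : IsNilpotent (aeval ν q)) (q4 : q.natDegree ≤ f) {l : ι} (hl : φ τ ^ (N - 1) * x l ≠ 0) :
    BadM au τ N f M c P b := by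
  let := φ.toAlgebra
  refine ⟨R, _, inferInstance, inferInstance, LinearMap.mulLeft Λ ν, q.map (Int.castRingHom Λ),
    q1.map _, natDegree_map_le.trans q4, ?_, V2.nil_aeval _ _ ?_, x, ⟨fun l => ?_, h.2⟩, l, ?_⟩
  · rwa [Polynomial.map_map, RingHom.ext_int (au.comp _) (Int.castRingHom F2)]
  · rwa [← algebraMap_int_eq, aeval_map_algebraMap]
  · simp only [rv, zero_smul, add_zero, LinearMap.mulLeft_apply]
    exact h.1 l
  · rwa [← map_pow] at hl

theorem nu0 {g : Λ} {n j : ℕ} (h2 : (2 : Λ) = 0) (hg : g ^ 2 ^ n = 1) (hj : n < j) :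
    nu j (g - 1) = 0 := by
  obtain ⟨j, rfl⟩ : ∃ b, j = n + b + 1 := ⟨j - n - 1, by omega⟩
  have : g ^ 2 ^ (n + j) = 1 := by rw [pow_add, pow_mul, hg, one_pow]
  rw [nu, pow_succ, mul_two, sum_range_add]
  simp only [add_sub_cancel, pow_add g, this, one_mul]
  rw [← two_mul, h2, zero_mul]

theorem inj {st : Λ →+* Λ} {au : Λ →+* F2} {τ : Λ} {N : ℕ} (h : LR st au τ N)
    (hN : φ τ ^ (N - 1) ≠ 0) : Function.Injective φ := by
  classical
  refine (injective_iff_map_eq_zero φ).2 fun y hy => by_contra fun y0 => hN ?_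
  have ex : ∃ k, ¬τ ^ k ∣ y := ⟨N, by rwa [h.nil, zero_dvd_iff]⟩
  have k1 := Nat.find_spec ex
  have k2 : Nat.find ex ≤ N := Nat.find_min' ex (by rwa [h.nil, zero_dvd_iff])
  obtain ⟨k, hk⟩ : ∃ k, Nat.find ex = k + 1 :=
    Nat.exists_eq_succ_of_ne_zero fun e => k1 (by rw [e, pow_zero]; exact one_dvd y)
  obtain ⟨z, rfl⟩ : τ ^ k ∣ y := not_not.1 (Nat.find_min ex (by omega))
  have z1 : au z ≠ 0 := fun e => k1 (by rw [hk, pow_succ]; exact mul_dvd_mul_left _ ((h.ker z).1 e))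
  have z2 : ∀ r : F2, r ≠ 0 → r - 1 = 0 := by decide
  obtain ⟨w, hw⟩ := (h.ker (z - 1)).1 (by rw [map_sub, map_one, z2 _ z1])
  have z3 : IsUnit z := by
    have : IsNilpotent (τ * w) := ⟨N, by rw [mul_pow, h.nil, zero_mul]⟩
    rw [sub_eq_iff_eq_add.1 hw]
    exact this.isUnit_add_one
  rw [map_mul, (z3.map φ).mul_left_eq_zero, map_pow] at hy
  exact pow_eq_zero_of_le (by omega) hy

theorem sys (C : SCC) (F : SFS) {S : Sy} {pr : ι → ℕ} {P n0 : ℕ} {i1 : ι} (hS : Ax S)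
    (hL : Lb pr P i1) {O : Type} [CommRing O] {t s u : O} {ψ : Ga → O}
    (A : Adm (LinearMap.mulLeft ℤ (1 + t)) (LinearMap.mulLeft ℤ s) (LinearMap.mulLeft ℤ u) (a + 1))
    (hc : Cc S.Φ (dd pr P) P (a + 2) (LinearMap.mulLeft ℤ (1 + t)) (Mu O 2) ψ)
    {st : Λ →+* Λ} {au : Λ →+* F2} {g : Λ} (lg : LG st au g (2 ^ n0)) (hn : n0 + 2 ≤ a)
    (hM : Cg g n0 (fun i => lev (pr i)) (MX S.D n0 g pr P) M) (π : O →+* R)
    (hπ : Function.Surjective π) (h2 : π 2 = 0) (hφ : φ g = π (1 + t)) :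
    Sys φ (fun i => lev (pr i)) M (fun i => cX S.D n0 g (pr i)) a (π s) (π u)
      (fun l => π (ψ (S.Φ.sg (pr l)))) ∧ π (ψ (S.Φ.sg 2)) = 0 := by
  let := φ.toAlgebra
  have sm : ∀ (h : Λ) (x : R), h • x = φ h * x := fun _ _ => rfl
  have fs := F ι O Λ R S pr P (a + 2) n0 (a + 1) i1 _ _ _ ψ st au g π.toAddMonoidHom
    (LinearMap.mulLeft Λ (π s)) (LinearMap.mulLeft Λ (π u)) M hS hL A (by omega) (by omega) lg
    ⟨hπ, fun x => by simp [h2], fun x => by simp [sm, hφ], fun x => by simp, fun x => by simp⟩ hM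
    (C.mono _ _ _ _ _ _ _ _ _ (LWL.mu_le one_le_two) hc)
  have ad := (C.adm _ _ _ _ _ A).1 2 (a + 2) (by omega)
  have ro : ∀ p, Eo (dd pr P) (a + 2) (LinearMap.mulLeft ℤ (1 + t)) ψ p ∈ Mu O 2 →
      Ro (dd pr P) (a + 2) (LinearMap.mulLeft ℤ (1 + t)) ψ p := fun p h => ⟨0, by simpa using h⟩
  obtain ⟨-, od, -, -, -, -, -, -, -, -, -, -, k⟩ := C.lab ι S.Φ pr P i1 hS.one hL
  have nl : ∀ i < a, (g - 1) ^ (2 ^ a - 2 ^ i) = 0 := fun i hi => by
    refine pow_eq_zero_of_le ?_ lg.lr.nil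
    obtain ⟨b, rfl⟩ : ∃ b, a = b + 1 := ⟨a - 1, by omega⟩
    have := Nat.pow_le_pow_right two_pos (show i ≤ b by omega)
    have := Nat.pow_le_pow_right two_pos (show n0 ≤ b by omega)
    omega
  have xt : π (ψ (S.Φ.sg 2)) = 0 := by
    rcases Nat.odd_mod_four_iff.1 (Nat.odd_iff.1 od) with h | h
    · exact fs.tz h
    · have := fs.tau h (ro _ (hc.two h))
      rwa [rel, if_pos (by omega), Nat.add_sub_cancel, nl 0 (by omega), zero_smul] at this
  have row := fun l => fs.row l (ro _ (C.odd _ _ _ _ _ _ _ _ _ hS.one ad hc (hL.odd l)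
    ((k _ (hL.odd l).1).2 (Or.inr (Or.inl ⟨l, rfl⟩)))))
  have inf := fs.inf (ro _ (C.inf _ _ _ _ _ _ _ _ hS.one ad hc))
  have n0' : ∀ i, a ≤ i → nu i (g - 1) = 0 := fun i hi => nu0 lg.lr.two lg.pw (by omega)
  simp only [RingHom.toAddMonoidHom_eq_coe, AddMonoidHom.coe_coe, xt, smul_zero, add_zero, rel,
    Nat.add_sub_cancel, LinearMap.mulLeft_apply] at row inf
  refine ⟨⟨fun l h => ?_, fun l h => ?_, fun l h => ?_, fun l h => ?_, inf⟩, xt⟩
  · have := row l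
    rwa [if_pos (by omega), nl _ h, zero_smul] at this
  · have := row l
    rwa [if_pos (by omega), n0' _ h.ge, zero_smul, add_zero, show lev (pr l) = a from h,
      Nat.sub_self, pow_zero, one_smul] at this
  · have := row l
    rwa [if_neg (by omega), if_pos h, n0' _ (by omega), zero_smul, add_zero] at this
  · have := row l
    rwa [if_neg (by omega), if_neg (by omega), n0' _ (by omega), zero_smul, add_zero] at this

end HIG

open HIG V2 in
theorem rowHIG : OfHIG := by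
  intro _ lam v1 C sy F ι O _ _ _ _ _ _ _ S pr P n J a i1 t ψ hS hL hJ so n0 Λ _ st au g M' lg ha hM
  obtain ⟨a, rfl⟩ : ∃ b, a = b + 1 := ⟨a - 1, by omega⟩
  obtain ⟨s, hs⟩ := so.lv.1
  have lv := so.lv
  have eg := so.eg
  have asc := om_asc lv.2
  have t0 : t ≠ 0 := fun h => lv.2 0 (by omega) (by simp [om, h])
  have two : (2 : O) ≠ 0 := two_ne_zero
  have om0 : om a t ≠ 0 := (asc a (by omega)).ne_zero_iff.2 (pow_ne_zero _ t0)
  obtain ⟨u, u1, u2, u3⟩ := half (lv.2 a (by omega))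
  have hM2 : ∀ (j : ℕ) (x : O), x ∈ Mu O j ↔ 2 ^ j ∣ x := fun j x => by
    simp only [mem_Mu, nsmul_eq_mul, Nat.cast_pow, Nat.cast_ofNat]
    exact ⟨fun ⟨y, h⟩ => ⟨y, h.symm⟩, fun ⟨y, h⟩ => ⟨y, h.symm⟩⟩
  have pw : ∀ (r : O) (k : ℕ) (x : O), (LinearMap.mulLeft ℤ r ^ k) x = r ^ k * x := fun r k x => by
    rw [LinearMap.pow_mulLeft, LinearMap.mulLeft_apply]
  have z0 : ∀ {j : ℕ} {x : O}, x = 0 → x ∈ Mu O j := fun h => h ▸ zero_mem _
  have A : Adm (LinearMap.mulLeft ℤ (1 + t)) (LinearMap.mulLeft ℤ s) (LinearMap.mulLeft ℤ u)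
      (a + 1) := by
    refine ⟨fun x h => (smul_eq_zero.1 h).resolve_left two_ne_zero, fun x => z0 ?_, fun x => z0 ?_,
      fun x => z0 ?_, fun x => z0 ?_, fun _ x => z0 ?_, fun h => absurd h (by omega), ?_⟩
    iterate 3 simp only [LinearMap.mulLeft_apply]; ring
    · rw [om] at hs
      simp only [pw, LinearMap.mulLeft_apply, nsmul_eq_mul, Nat.cast_ofNat]
      linear_combination x * hs
    · rw [om] at u2
      simp only [pw, LinearMap.mulLeft_apply, nsmul_eq_mul, Nat.cast_ofNat, Nat.add_sub_cancel]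
      linear_combination -x * u2
    · obtain ⟨k, hk⟩ := nil two u1
      rw [← map_pow, Ideal.Quotient.eq_zero_iff_mem, Ideal.mem_span_singleton] at hk
      exact ⟨k, fun x => (hM2 1 _).2 (by rw [pw, pow_one]; exact hk.mul_right x)⟩
  have ad := (C.adm _ _ _ _ _ A).1 2 (a + 2) (by omega)
  have hc : Cc S.Φ (dd pr P) P (a + 2) (LinearMap.mulLeft ℤ (1 + t)) (Mu O 2) ψ := by
    refine C.lvl _ _ _ _ n _ _ _ _ hS.one.z ⟨ad.1, fun x => (hM2 2 _).2 ?_⟩ ad
      (C.mono _ _ _ _ _ _ _ _ _ (LWL.mu_le hJ) so.cc)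
    rw [pw, ← sub_one_mul]
    exact ((pow_dvd_pow 2 hJ).trans so.pw).mul_right x
  have nu0 : ∀ x : O, ¬IsUnit x ↔ residue O x = 0 := fun x => by
    rw [residue_eq_zero_iff, mem_maximalIdeal, mem_nonunits_iff]
  have := V1.charP_res eg.1
  let j : F2 →+* ResidueField O := ZMod.castHom (dvd_refl 2) _
  obtain ⟨k1, k2⟩ := sys (φ := j) (M := Sm0 pr P) C F hS hL A hc lam.zero.1 (by omega)
    (fun i i' => by
      rw [← (sy.aus ι F2 S.D i2 i2 1 0 pr P lam.zero.1 hL.odd).1]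
      simp)
    (residue O) residue_surjective ((nu0 _).1 eg.1) (by rw [map_add, (nu0 _).1 eg.2.1]; simp)
  rw [(nu0 u).1 u1, show (fun i => cX S.D 0 (1 : F2) (pr i)) = fun i => eps (pr i) from
    funext (sy.aus ι F2 S.D i2 i2 1 0 pr P lam.zero.1 hL.odd).2] at k1
  obtain ⟨i₀, i2⟩ : ∃ i, IsUnit (ψ (S.Φ.sg (pr i))) := by
    by_contra! hn
    obtain ⟨h, hh⟩ := so.un
    obtain ⟨-, -, -, -, -, -, -, -, -, -, -, -, k⟩ := C.lab ι S.Φ pr P i1 hS.one hL
    refine C.det _ _ _ _ _ _ _ (maximalIdeal O).toAddSubgroup _ hS.one ad (fun x hx => ?_)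
      (fun x hx => Ideal.mul_mem_left _ _ hx) hL.prime hL.md hc (fun l hl hP h1 => ?_) h hh
    · obtain ⟨y, rfl⟩ := (hM2 2 x).1 hx
      exact Ideal.mul_mem_right _ _ (Ideal.pow_mem_of_mem _ eg.1 2 two_pos)
    · rcases (k l hl).1 h1 with h | ⟨j, rfl⟩ | ⟨rfl, -⟩
      · exact absurd h hP
      · exact hn j
      · exact (nu0 _).2 k2
  have i3 : a + 1 ≤ lev (pr i₀) := by
    by_contra h
    refine (nu0 _).2 ?_ i2
    rcases (Nat.lt_succ_iff.1 (not_le.1 h)).eq_or_lt with e | e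
    · rw [k1.mid _ e, zero_mul]
    · exact k1.lo _ e
  obtain ⟨q, q1, q2, q3⟩ := v1.mp O s eg.1
  have e1 : 2 ^ n0 + 2 ^ n0 ≤ 2 ^ a :=
    le_trans (by omega) (Nat.pow_le_pow_right two_pos (show n0 + 1 ≤ a by omega))
  obtain ⟨T, hT⟩ : ∃ T, T = t ^ 2 ^ n0 := ⟨_, rfl⟩
  have T0 : T ≠ 0 := hT ▸ pow_ne_zero _ t0
  have TT : T * T ∣ om a t := by
    rw [hT, ← pow_add]
    exact (pow_dvd_pow t e1).trans (asc a (by omega)).dvd'
  have T2 : T ∣ 2 := u2 ▸ ((dvd_mul_right T T).trans TT).mul_right u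
  have us : u * s = om a t * (1 + u) := mul_left_cancel₀ om0 (by
    rw [← mul_assoc, ← u2, ← hs, om_succ, mul_add (om a t) 1, ← u2, mul_one])
  let mk := Ideal.Quotient.mk (Ideal.span {T})
  have mk0 : ∀ x, mk x = 0 ↔ T ∣ x := fun x =>
    Ideal.Quotient.eq_zero_iff_mem.trans Ideal.mem_span_singleton
  obtain ⟨φ, hφ⟩ := lg.lift _ (mk (1 + t)) ((mk0 2).2 T2) (by
    rw [← map_pow, ← sub_eq_zero, ← mk.map_one, ← map_sub, mk0, hT]
    exact (asc n0 (by omega)).dvd')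
  obtain ⟨m1, -⟩ := sys C F hS hL A hc lg (by omega) hM mk Ideal.Quotient.mk_surjective
    ((mk0 2).2 T2) hφ
  have nT : φ (g - 1) ^ (2 ^ n0 - 1) * mk (ψ (S.Φ.sg (pr i₀))) ≠ 0 := fun h => by
    rw [map_sub, hφ, map_one, ← map_one mk, ← map_sub, ← map_pow, ← map_mul, mk0, hT,
      add_sub_cancel_left, ← Nat.sub_add_cancel (Nat.one_le_two_pow (n := n0)), pow_succ,
      Nat.add_sub_cancel, mul_dvd_mul_iff_left (pow_ne_zero _ t0)] at h
    exact eg.2.1 (isUnit_of_dvd_unit h i2)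
  have hi : Function.Injective φ := inj lg.lr (left_ne_zero_of_mul nT)
  have := fin T0
  have L : ∀ f, ¬q.natDegree ≤ f →
      BadL (fun i => lev (pr i)) (fun i => eps (pr i)) (Sm0 pr P) (a + 1) (f + 1) := fun f hf => by
    have E := eqF k1
    simp only [Eqs, Bool.false_eq_true, and_false, if_false] at E
    refine ⟨_, q2, by rw [q1.natDegree_map]; omega, V1.desc j (residue O s) _ q2 ?_ _ _ _ _ _
      (fun h => (nu0 _).2 (congrFun h ⟨i₀, i3⟩) i2) (fun l => ?_) E.2⟩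
    · rw [eval₂_map, ← (nu0 _).1 q3, aeval_def, hom_eval₂]
      congr 1
      exact RingHom.ext_int _ _
    · rw [E.1 l, if_neg (Nat.succ_ne_zero a), map_zero, zero_mul, add_zero]
  rcases ValuationRing.dvd_total T u with h | h
  · rw [(mk0 u).2 h] at m1
    have E := eqF m1
    refine ⟨fun f => (em (q.natDegree ≤ f)).elim (fun hf => Or.inr (Or.inl
      (toM E q q1 q2 ?_ hf (l := ⟨i₀, i3⟩) nT))) fun hf => Or.inl (L f hf),
      Or.inl ⟨_, _, φ, _, _, hi, E.1, E.2, ⟨i₀, i3⟩, i2.map mk, by simp⟩⟩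
    exact aeval_algHom_apply mk.toIntAlgHom s q ▸ nil T0 q3
  · have Ts : T ∣ s := by
      have u0 : u ≠ 0 := fun e => two (by rw [u2, e, mul_zero])
      rw [← mul_dvd_mul_iff_left u0, us]
      exact ((mul_dvd_mul_right h T).trans TT).mul_right _
    rw [(mk0 s).2 Ts] at m1
    have E := eqT m1
    have i4 : lev (pr i₀) ≠ a := by omega
    refine ⟨fun f => (em (q.natDegree ≤ f)).elim (fun hf => Or.inr (Or.inr
      (toM E X monic_X (by rw [map_X]; exact irreducible_X) (by rw [aeval_X]; exact nil T0 u1)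
        (natDegree_X_le.trans (le_trans ?_ hf)) (l := ⟨i₀, Nat.le_of_succ_le i3⟩) ?_)))
      fun hf => Or.inl (L f hf),
      Or.inr ⟨_, _, φ, _, _, hi, E.1, E.2, ⟨i₀, Nat.le_of_succ_le i3⟩, ?_, fun _ => ?_⟩⟩
    · rw [← q1.natDegree_map (Int.castRingHom F2)]
      exact q2.natDegree_pos
    · simpa only [if_neg i4] using nT
    · simpa only [if_neg i4] using i2.map mk
    · simpa using i4

end Pool.Agent.MP_1246c0_nt.H25
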