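import Pool.Agent.MP_1246c0_nt.H25.SpecU
import Pool.Agent.MP_1246c0_nt.H36.MASS
import Pool.Agent.MP_1246c0_nt.H55N.TR

/-! Sums of reciprocals of primes. -/

namespace Pool.Agent.MP_1246c0_nt.H25

open Finset Filter Real
open Pool.Agent.MP_1246c0_nt.H12

namespace WIN

open MASS

theorem lg1 {x : ℕ} (h : 3 ≤ x) : 1 ≤ log x := by
  have : (3 : ℝ) ≤ x := by exact_mod_cast h
  rw [le_log_iff_exp_le (by linarith)]
  linarith [exp_one_lt_d9]

theorem sg0 {x : ℕ} (h : 3 ≤ x) : 0 < 1 / log x := one_div_pos.2 (one_pos.trans_le (lg1 h))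

theorem sg1 {x : ℕ} (h : 3 ≤ x) : 1 / log x ≤ 1 := (div_le_one (one_pos.trans_le (lg1 h))).2 (lg1 h)

theorem ll0 {x : ℕ} (h : 3 ≤ x) : 0 ≤ ll x := log_nonneg (lg1 h)

theorem lli (x : ℕ) : log (1 / (1 / log x)) = ll x := by rw [one_div_one_div, ll]

theorem a1 {σ : ℝ} (h : 0 ≤ σ) {p : ℕ} (hp : 0 < p) : pw σ p ≤ 1 / p := by
  rw [TR.pw_eq _ hp]
  exact div_le_div_of_nonneg_right
    (exp_le_one_iff.2 (neg_nonpos.2 (mul_nonneg h (log_natCast_nonneg p)))) p.cast_nonneg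

theorem a2 {x p : ℕ} (hx : 3 ≤ x) (hp : 0 < p) (h : p ≤ x) : 1 / (p : ℝ) ≤ 3 * pw (1 / log x) p := by
  have l1 : log p ≤ log x := log_le_log (Nat.cast_pos.2 hp) (Nat.cast_le.2 h)
  have a3 : exp (-1) ≤ exp (-(1 / log x * log p)) := by
    refine exp_le_exp.2 (neg_le_neg ?_)
    rwa [one_div, inv_mul_le_iff₀ (one_pos.trans_le (lg1 hx)), mul_one]
  have a4 : 1 ≤ 3 * exp (-1) := by
    rw [exp_neg, ← div_eq_mul_inv, le_div_iff₀ (exp_pos 1)]
    linarith [exp_one_lt_d9]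
  rw [TR.pw_eq _ hp, ← mul_div_assoc]
  exact div_le_div_of_nonneg_right (by linarith) p.cast_nonneg

theorem a3 {x p : ℕ} (hx : 3 ≤ x) (hp : 0 < p) (h : p ≤ x) : 1 / (p : ℝ) ≤
    1 * pw (1 / log x) p + 3 * (1 / log x) * (log p * pw (1 / log x) p) := by
  have b0 := mul_nonneg (sg0 hx).le (log_natCast_nonneg p)
  have b1 := mul_le_mul_of_nonneg_left (a2 hx hp h) b0
  have b2 := mul_le_mul_of_nonneg_right (add_one_le_exp (-(1 / log x * log p)))
    (one_div_nonneg.2 (p.cast_nonneg (α := ℝ)))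
  rw [mul_one_div (exp _), ← TR.pw_eq _ hp] at b2
  linarith

theorem a4 {x p : ℕ} (hx : 3 ≤ x) (h : x ≤ p) :
    pw (1 / log x) p ≤ 1 / log x * (log p * pw (1 / log x) p) := by
  have l1 : log x ≤ log p := log_le_log (Nat.cast_pos.2 (by omega)) (Nat.cast_le.2 h)
  rw [← mul_assoc, one_div_mul_eq_div]
  exact le_mul_of_one_le_left (p0 _ _) ((one_le_div (one_pos.trans_le (lg1 hx))).2 l1)

theorem low (Q : ℕ → Prop) (x : ℕ) {f : ℕ → ℝ} (hf : Summable f) (h0 : ∀ p, 0 ≤ f p)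
    (h1 : ∀ p, 0 < p → p ≤ x → 1 / (p : ℝ) ≤ f p) : RS 0 x Q ≤ SP' Q f := by
  classical
  refine TR.low Q _ hf (fun p hp => (mem_filter.1 hp).2) (fun p _ => h0 p) fun p hp => ?_
  exact h1 p (mem_Ioc.1 (mem_filter.1 hp).1).1 (mem_Ioc.1 (mem_filter.1 hp).1).2

theorem up (Q : ℕ → Prop) {x : ℕ} (hx : 3 ≤ x) : RS 0 x Q ≤ 3 * SP' Q (pw (1 / log x)) := by
  have := TR.sp_lin Q (s0 (sg0 hx)) (s0 (sg0 hx)) 3 0
  simp only [zero_mul, add_zero] at this
  rw [← this]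
  exact low Q x ((s0 (sg0 hx)).mul_left 3) (fun p => mul_nonneg zero_le_three (p0 _ _))
    fun p => a2 hx

variable {C : ℝ}

theorem mass (hC : 0 ≤ C) {x : ℕ} (hx : 3 ≤ x)
    (h : SP' (fun _ => True) (fun p => log p * pw (1 / log x) p) ≤ 1 / (1 / log x) + C) :
    1 / log x * SP' (fun _ => True) (fun p => log p * pw (1 / log x) p) ≤ 1 + C := by
  refine (mul_le_mul_of_nonneg_left h (sg0 hx).le).trans ?_
  rw [mul_add, mul_one_div_cancel (sg0 hx).ne']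
  exact add_le_add_right (mul_le_of_le_one_left hC (sg1 hx)) 1

theorem win (hC : 0 ≤ C) (h : ∀ σ : ℝ, 0 < σ → σ ≤ 1 →
      SP' (fun _ => True) (fun p => log p * pw σ p) ≤ 1 / σ + C) (Q : ℕ → Prop) {y x : ℕ}
    (hy : 3 ≤ y) (hx : y ≤ x) :
    SP' Q (fun p => pw (1 / log x) p - pw (1 / log y) p) ≤ RS y x Q + 4 * (1 + C) := by
  classical
  have hx' := hy.trans hx
  have u1 : ∀ p : ℕ, 0 ≤ 3 * (1 / log y) * (log p * pw (1 / log y) p) := fun p =>
    mul_nonneg (mul_nonneg zero_le_three (sg0 hy).le) (l0 _ _)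
  have u2 : ∀ p : ℕ, 0 ≤ 1 / log x * (log p * pw (1 / log x) p) := fun p =>
    mul_nonneg (sg0 hx').le (l0 _ _)
  refine (TR.up Q _ (w := fun p => 1 / (p : ℝ)) ((s0 (sg0 hx')).sub (s0 (sg0 hy)))
    (((sl (sg0 hy)).mul_left (3 * (1 / log y))).add ((sl (sg0 hx')).mul_left (1 / log x)))
    (fun p hp => (mem_filter.1 hp).2) (fun p _ => add_nonneg (u1 p) (u2 p)) (fun p hp => ?_)
    fun p hp hq hn => ?_).trans (add_le_add_right ?_ _)
  · linarith [a1 (sg0 hx').le (mem_filter.1 hp).2.1.pos, p0 (1 / log y) p, u1 p, u2 p]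
  · rcases le_or_gt p y with c | c
    · linarith [a1 (sg0 hx').le hp.pos, a3 hy hp.pos c, u2 p]
    · have : x ≤ p := by
        by_contra d
        exact hn (mem_filter.2 ⟨mem_Ioc.2 ⟨c, by omega⟩, hp, hq⟩)
      linarith [a4 hx' this, p0 (1 / log y) p, u1 p]
  · rw [TR.sp_lin _ (sl (sg0 hy)) (sl (sg0 hx'))]
    linarith [mass hC hy (h _ (sg0 hy) (sg1 hy)), mass hC hx' (h _ (sg0 hx') (sg1 hx'))]

theorem lq {y x : ℕ} (hy : 3 ≤ y) (hx : y ≤ x) :
    log (1 / log y / (1 / log x)) = ll x - ll y ∧ 1 / log x ≤ 1 / log y := by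
  have h1 := one_pos.trans_le (lg1 hy)
  have h2 := one_pos.trans_le (lg1 (hy.trans hx))
  refine ⟨?_, one_div_le_one_div_of_le h1 (log_le_log (Nat.cast_pos.2 (by omega)) (Nat.cast_le.2 hx))⟩
  rw [ll, ll, ← log_div h2.ne' h1.ne']
  congr 1
  field_simp

theorem lv (hC : 0 ≤ C) {K σ : ℝ} (hK : ∀ k : ℕ, (k : ℝ) ^ 10 / (5 / 4) ^ k ≤ K) (h0 : 0 < σ)
    (h1 : σ ≤ 1) (h : ∀ (k b : ℕ) (σ' : ℝ), 1 ≤ k → Odd b → b < 2 ^ k → σ ≤ σ' → σ' ≤ 1 →
      |SP' (fun p => p % 2 ^ k = b) (fun p => pw σ p - pw σ' p) - 2 / 2 ^ k * log (σ' / σ)| ≤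
        C * (k + 1) ^ 10 * σ') {k b : ℕ} (hk : 1 ≤ k) (hb : Odd b) (hq : b < 2 ^ k)
    (hb' : b = 1 ∨ 2 ^ k ≤ 2 * b) :
    SP' (fun p => p % 2 ^ k = b) (pw σ) ≤
      2 / 2 ^ k * log (1 / σ) + (2 * C * K + 4) / (6 / 5) ^ k := by
  have K0 : 0 ≤ K := le_trans (by positivity) (hK 0)
  have l0 : 0 ≤ log (1 / σ) := log_nonneg (one_le_one_div h0 h1)
  have E : ∀ t, (2 / 3 : ℝ) ^ k ≤ t → SP' (fun p => p % 2 ^ k = b) (pw t) ≤ 4 / (6 / 5) ^ k := by
    intro t ht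
    have t0 : 0 < t := lt_of_lt_of_le (by positivity) ht
    refine (cls (Nat.le_self_pow (by omega) 2) hb' t0).trans ?_
    have e1 : 1 / t ≤ (3 / 2) ^ k := by
      rw [one_div_le t0 (by positivity), ← one_div_pow, one_div_div]
      exact ht
    have e2 : (1 : ℝ) ≤ (3 / 2) ^ k := one_le_pow₀ (by norm_num)
    have e3 : (3 / 2 : ℝ) ^ k * (6 / 5) ^ k ≤ 2 ^ k := by
      rw [← mul_pow]
      exact pow_le_pow_left₀ (by norm_num) (by norm_num) k
    have e4 : (0 : ℝ) < (6 / 5) ^ k := by positivity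
    push_cast
    rw [div_mul_eq_mul_div, div_le_div_iff₀ (by positivity) e4]
    nlinarith
  have F : 0 ≤ 2 * C * K / (6 / 5) ^ k := by positivity
  rw [add_div]
  rcases le_total ((2 / 3 : ℝ) ^ k) σ with c | c
  · linarith [E σ c, mul_nonneg (show (0 : ℝ) ≤ 2 / 2 ^ k by positivity) l0]
  have c1 : (2 / 3 : ℝ) ^ k ≤ 1 := pow_le_one₀ (by norm_num) (by norm_num)
  have := (abs_le.1 (h k b _ hk hb hq c c1)).2
  rw [MASS.sub _ (s0 h0) (s0 (h0.trans_le c))] at this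
  have G : 2 / 2 ^ k * log ((2 / 3) ^ k / σ) ≤ 2 / 2 ^ k * log (1 / σ) := by gcongr
  have H : C * (k + 1) ^ 10 * (2 / 3) ^ k ≤ 2 * C * K / (6 / 5) ^ k := by
    have e := hK (k + 1)
    have e1 : (2 / 3 : ℝ) ^ k * (6 / 5) ^ k * (5 / 4) ^ k = 1 := by
      rw [← mul_pow, ← mul_pow]
      norm_num
    have e2 : (0 : ℝ) < (5 / 4) ^ k := by positivity
    rw [div_le_iff₀ (by positivity), pow_succ (5 / 4 : ℝ)] at e
    push_cast at e
    rw [le_div_iff₀ (by positivity)]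
    refine le_of_mul_le_mul_right ?_ e2
    rw [mul_assoc (C * _), mul_assoc (C * _), e1, mul_one]
    nlinarith [mul_le_mul_of_nonneg_left e hC, mul_nonneg (mul_nonneg hC K0) e2.le]
  linarith [E _ le_rfl]

end WIN

open WIN MASS in
theorem rowWIN : OfWIN := by
  rintro dec ⟨C, hC, m⟩ ⟨D, hD, d⟩
  have w := win hC fun σ a b => (m σ a b).2.2.1
  have tot : ∀ x : ℕ, 3 ≤ x → RS 0 x (fun _ => True) ≤ ll x + (C + 3 * (1 + C)) := fun x hx => by
    obtain ⟨-, -, m1, m2, -⟩ := m _ (sg0 hx) (sg1 hx)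
    refine (low _ x (((s0 (sg0 hx)).mul_left 1).add ((sl (sg0 hx)).mul_left _))
      (fun p => add_nonneg (mul_nonneg zero_le_one (p0 _ _))
        (mul_nonneg (mul_nonneg zero_le_three (sg0 hx).le) (l0 _ _))) fun p => a3 hx).trans ?_
    rw [TR.sp_lin _ (s0 (sg0 hx)) (sl (sg0 hx))]
    rw [lli] at m2
    linarith [mass hC hx m1, (abs_le.1 m2).2]
  have sm : ∀ {y : ℕ} {t : ℝ}, 3 ≤ y → t ≤ log y → t * (1 / log y) ≤ 1 := fun hy ht => by
    rw [mul_one_div]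
    exact (div_le_one (one_pos.trans_le (lg1 hy))).2 ht
  obtain ⟨K, hK⟩ := (tendsto_pow_const_div_const_pow_of_one_lt 10
    (show (1 : ℝ) < 5 / 4 by norm_num)).bddAbove_range
  replace hK : ∀ k : ℕ, (k : ℝ) ^ 10 / (5 / 4) ^ k ≤ K := fun k => hK ⟨k, rfl⟩
  have K0 : 0 ≤ K := le_trans (by positivity) (hK 0)
  refine ⟨⟨C + 4 * (1 + C), by positivity, fun k b y x hk hb hq hy hx hl => ?_⟩,
    ⟨3 * D + 4 * (1 + C), by positivity, fun k y x W hk hW hG hy hx hl hc => ?_⟩,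
    fun Q x => up Q, ⟨C + 3 * (1 + C) + 6 * (2 * C * K + 4), by positivity, fun a x hx => ?_⟩,
    ⟨_, by positivity, tot⟩⟩
  · obtain ⟨e1, e2⟩ := lq hy hx
    have := (abs_le.1 ((m _ (sg0 (hy.trans hx)) (sg1 (hy.trans hx))).2.2.2.2.1 k b _ hk hb hq e2
      (sg1 hy))).1
    rw [e1, mul_assoc] at this
    linarith [w (fun p => p % 2 ^ k = b) hy hx, mul_le_of_le_one_right hC (sm hy hl)]
  · obtain ⟨e1, e2⟩ := lq hy hx
    have := (d k W _ _ hk hW hG (sg0 (hy.trans hx)) e2 (sg1 hy)).trans (w _ hy hx)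
    rw [e1, lli, mul_comm _ (W.card : ℝ)] at this
    have b1 : 0 ≤ log (5 + k + ∑ l ∈ W, log l) := log_nonneg (by
      have : 0 ≤ ∑ l ∈ W, log l := sum_nonneg fun l _ => log_natCast_nonneg l
      have : (0 : ℝ) ≤ k := k.cast_nonneg
      linarith)
    have b2 := ll0 hy
    nlinarith [mul_le_of_le_one_right hD (sm hy hl), mul_le_of_le_one_right hD (sm hy hc),
      mul_nonneg hD b1, mul_nonneg hD b2, mul_nonneg hC b1, mul_nonneg hC b2]
  · have b2 := ll0 hx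
    have b3 : 0 ≤ 2 * C * K + 4 := by positivity
    rcases a.eq_zero_or_pos with rfl | ha
    · have := tot x hx
      simp only [zero_le, pow_zero, div_one]
      linarith
    have q2 : 2 ^ 2 ≤ 2 ^ (a + 2) := Nat.pow_le_pow_right two_pos (by omega)
    have L := fun b => lv hC hK (sg0 hx) (sg1 hx) (m _ (sg0 hx) (sg1 hx)).2.2.2.2.1 (k := a + 2)
      (b := b) (by omega)
    have L1 := L 1 odd_one (by omega) (.inl rfl)
    have L2 := L (2 ^ (a + 2) - 1)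
      (Nat.Even.sub_odd (by omega) (Even.pow_of_ne_zero even_two (by omega)) odd_one) (by omega)
      (.inr (by omega))
    have U := uni (fun p => a ≤ lev p) (fun p => p % 2 ^ (a + 2) = 1)
      (fun p => p % 2 ^ (a + 2) = 2 ^ (a + 2) - 1) (fun p hp h => by
        rcases hp.eq_two_or_odd with rfl | o
        · have : lev 2 = 0 := by
            rw [lev, padicValNat.eq_zero_of_not_dvd (by norm_num)]
          omega
        · obtain ⟨c1, c2, -⟩ := (dec.cls p o hp.one_lt).2.2 a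
          have : ∀ e : F2, e = 0 ∨ e = 1 := by decide
          exact (this (eps p)).imp (fun e => c1.1 ⟨h, e⟩) fun e => c2.1 ⟨h, e⟩)
      (s0 (sg0 hx)) (p0 _)
    have e1 : 2 / 2 ^ (a + 2) * ll x = ll x / 2 ^ a / 2 := by ring
    have e2 : (2 * C * K + 4) / (6 / 5) ^ (a + 2) ≤ (2 * C * K + 4) / (6 / 5) ^ a := by
      gcongr
      · norm_num
      · omega
    have e3 : 0 ≤ (C + 3 * (1 + C)) / (6 / 5) ^ a := by positivity
    rw [lli, e1] at L1 L2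
    rw [add_div, mul_div_assoc, mul_div_assoc]
    linarith [up (fun p => a ≤ lev p) hx]

end Pool.Agent.MP_1246c0_nt.H25
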